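import Mathlib
import Pool.Agent.Lib_helper59.LR2.Rank

/-!
Factorisations of low inner dimension, and an approximate Bessel inequality.
-/

set_option autoImplicit false

namespace Pool.Agent.Lib_helper76.LD

open Finset

/-- `G` is a product of matrices with inner dimension `r`. -/
def Fac {X Y : Type*} (r : ℕ) (G : X → Y → ℝ) : Prop :=
  ∃ (A : X → Fin r → ℝ) (B : Fin r → Y → ℝ), ∀ x y, G x y = ∑ j, A x j * B j y

theorem Fac.of_fintype {X Y J : Type*} [Fintype J] (G : X → Y → ℝ) (A : X → J → ℝ)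
    (B : J → Y → ℝ) (h : ∀ x y, G x y = ∑ j, A x j * B j y) : Fac (Fintype.card J) G := by
  refine ⟨fun x j => A x ((Fintype.equivFin J).symm j), fun j y => B ((Fintype.equivFin J).symm j) y,
    fun x y => ?_⟩
  rw [h x y]
  exact (Equiv.sum_comp (Fintype.equivFin J).symm (fun j => A x j * B j y)).symm

theorem Fac.mul {X Y : Type*} {r r' : ℕ} {G G' : X → Y → ℝ} (h : Fac r G) (h' : Fac r' G') :
    Fac (r * r') (fun x y => G x y * G' x y) := by
  obtain ⟨A, B, hG⟩ := h
  obtain ⟨A', B', hG'⟩ := h'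
  have := Fac.of_fintype (J := Fin r × Fin r') (fun x y => G x y * G' x y)
    (fun x j => A x j.1 * A' x j.2) (fun j y => B j.1 y * B' j.2 y) (by
      intro x y
      rw [hG, hG', Finset.sum_mul_sum, Fintype.sum_prod_type]
      refine Finset.sum_congr rfl fun i _ => Finset.sum_congr rfl fun j _ => ?_
      ring)
  simpa using this

theorem Fac.add {X Y : Type*} {r r' : ℕ} {G G' : X → Y → ℝ} (h : Fac r G) (h' : Fac r' G') :
    Fac (r + r') (fun x y => G x y + G' x y) := by
  obtain ⟨A, B, hG⟩ := h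
  obtain ⟨A', B', hG'⟩ := h'
  have := Fac.of_fintype (J := Fin r ⊕ Fin r') (fun x y => G x y + G' x y)
    (fun x => Sum.elim (A x) (A' x)) (fun j y => Sum.elim (fun i => B i y) (fun i => B' i y) j) (by
      intro x y
      rw [hG, hG', Fintype.sum_sum_type]
      rfl)
  simpa using this

theorem Fac.sub_maps {X Y X' Y' : Type*} {r : ℕ} {G : X → Y → ℝ} (h : Fac r G) (φ : X' → X)
    (ψ : Y' → Y) : Fac r (fun x y => G (φ x) (ψ y)) := by
  obtain ⟨A, B, hG⟩ := h
  exact ⟨fun x => A (φ x), fun j y => B j (ψ y), fun x y => hG _ _⟩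

theorem Fac.scale {X Y : Type*} {r : ℕ} {G : X → Y → ℝ} (h : Fac r G) (u : X → ℝ)
    (v : Y → ℝ) : Fac r (fun x y => u x * G x y * v y) := by
  obtain ⟨A, B, hG⟩ := h
  refine ⟨fun x j => u x * A x j, fun j y => B j y * v y, fun x y => ?_⟩
  change u x * G x y * v y = ∑ j, (u x * A x j) * (B j y * v y)
  rw [hG, Finset.mul_sum, Finset.sum_mul]
  exact Finset.sum_congr rfl fun j _ => by ring

theorem Fac.const {X Y : Type*} (c : ℝ) : Fac 1 (fun (_ : X) (_ : Y) => c) :=
  ⟨fun _ _ => c, fun _ _ => 1, fun x y => by simp⟩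

theorem Fac.mono {X Y : Type*} {r r' : ℕ} (hr : r ≤ r') {G : X → Y → ℝ} (h : Fac r G) :
    Fac r' G := by
  obtain ⟨A, B, hG⟩ := h
  obtain ⟨e, rfl⟩ := Nat.exists_eq_add_of_le hr
  have := Fac.of_fintype (J := Fin r ⊕ Fin e) G
    (fun x => Sum.elim (A x) (fun _ => 0)) (fun j y => Sum.elim (fun i => B i y) (fun _ => 0) j) (by
      intro x y
      rw [hG, Fintype.sum_sum_type]
      simp)
  simpa using this

theorem Fac.of_rank {X Y : Type*} [Fintype X] [Fintype Y] (A : Matrix X Y ℝ) (R : ℕ)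
    (hR : A.rank ≤ R) : Fac R (fun x y => A x y) := by
  obtain ⟨n, b, hn, _, h⟩ := Pool.Agent.LR2.rank_onb A R hR
  have h1 : Fac n (fun x y => A x y) :=
    ⟨fun x k => b k x, fun k y => ∑ x', b k x' * A x' y, fun x y =>
      (h x y).trans (Finset.sum_congr rfl fun k _ => mul_comm _ _)⟩
  exact h1.mono hn

theorem Fac.rank_le {X Y : Type*} [Fintype X] [Fintype Y] {R : ℕ} {G : X → Y → ℝ}
    (h : Fac R G) : (Matrix.of G).rank ≤ R := by
  obtain ⟨A, B, hG⟩ := h
  have h1 : Matrix.of G = (Matrix.of A : Matrix X (Fin R) ℝ) * (Matrix.of B) := by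
    ext x y
    rw [Matrix.mul_apply]
    exact hG x y
  rw [h1]
  exact (Matrix.rank_mul_le_left _ _).trans ((Matrix.rank_le_card_width _).trans (by simp))

/-- Almost orthogonal sign vectors: an approximate Bessel inequality. -/
theorem near_bessel {V I : Type*} [Fintype V] [Fintype I] (s : V → I → ℝ) (β : ℝ) (hβ : 0 ≤ β)
    (hs : ∀ i, ∑ x, s x i * s x i ≤ Fintype.card V)
    (hc : ∀ i j, i ≠ j → |∑ x, s x i * s x j| ≤ Fintype.card V * β)
    (b : V → ℝ) (hb : ∑ x, b x ^ 2 = 1) :
    ∑ i, (∑ x, s x i * b x) ^ 2 ≤ Fintype.card V * (1 + Fintype.card I * β) := by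
  classical
  set a : I → ℝ := fun i => ∑ x, s x i * b x with ha
  set S : ℝ := ∑ i, a i ^ 2 with hS
  set v : ℝ := (Fintype.card V : ℝ) with hv
  set N : ℝ := (Fintype.card I : ℝ) with hN
  have hv0 : 0 ≤ v := Nat.cast_nonneg _
  have hN0 : 0 ≤ N := Nat.cast_nonneg _
  have hS0 : 0 ≤ S := Finset.sum_nonneg fun i _ => sq_nonneg _
  have e1 : S = ∑ x, (∑ i, a i * s x i) * b x := by
    have : ∀ x, (∑ i, a i * s x i) * b x = ∑ i, a i * (s x i * b x) := by
      intro x
      rw [Finset.sum_mul]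
      exact Finset.sum_congr rfl fun i _ => by ring
    simp only [this]
    rw [Finset.sum_comm]
    rw [hS]
    refine Finset.sum_congr rfl fun i _ => ?_
    rw [← Finset.mul_sum, sq]
  have e2 : S ^ 2 ≤ ∑ x, (∑ i, a i * s x i) ^ 2 := by
    have := Finset.sum_mul_sq_le_sq_mul_sq univ (fun x => ∑ i, a i * s x i) b
    rw [hb, mul_one, ← e1] at this
    exact this
  have e3 : ∑ x, (∑ i, a i * s x i) ^ 2 = ∑ i, ∑ j, a i * a j * ∑ x, s x i * s x j := by
    calc ∑ x, (∑ i, a i * s x i) ^ 2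
        = ∑ x, ∑ i, ∑ j, a i * a j * (s x i * s x j) := by
          refine Finset.sum_congr rfl fun x _ => ?_
          rw [sq, Finset.sum_mul_sum]
          exact Finset.sum_congr rfl fun i _ => Finset.sum_congr rfl fun j _ => by ring
      _ = _ := by
          rw [Finset.sum_comm]
          refine Finset.sum_congr rfl fun i _ => ?_
          rw [Finset.sum_comm]
          exact Finset.sum_congr rfl fun j _ => (Finset.mul_sum _ _ _).symm
  have e4 : ∀ i j, a i * a j * ∑ x, s x i * s x j ≤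
      (if i = j then v * a i ^ 2 else 0) + v * β * (|a i| * |a j|) := by
    intro i j
    split_ifs with hij
    · subst hij
      have h1 : a i * a i * ∑ x, s x i * s x i ≤ a i * a i * v :=
        mul_le_mul_of_nonneg_left (hs i) (mul_self_nonneg _)
      have h2 : 0 ≤ v * β * (|a i| * |a i|) := by positivity
      nlinarith [h1, h2]
    · have h1 : a i * a j * ∑ x, s x i * s x j ≤ |a i * a j| * (v * β) := by
        calc a i * a j * ∑ x, s x i * s x j ≤ |a i * a j * ∑ x, s x i * s x j| := le_abs_self _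
          _ = |a i * a j| * |∑ x, s x i * s x j| := abs_mul _ _
          _ ≤ _ := mul_le_mul_of_nonneg_left (hc i j hij) (abs_nonneg _)
      rw [abs_mul] at h1
      linarith
  have e5 : ∑ i, ∑ j, a i * a j * ∑ x, s x i * s x j ≤ v * S + v * β * (∑ i, |a i|) ^ 2 := by
    calc ∑ i, ∑ j, a i * a j * ∑ x, s x i * s x j
        ≤ ∑ i, ∑ j, ((if i = j then v * a i ^ 2 else 0) + v * β * (|a i| * |a j|)) :=
          Finset.sum_le_sum fun i _ => Finset.sum_le_sum fun j _ => e4 i j
      _ = _ := by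
          simp only [Finset.sum_add_distrib, Finset.sum_ite_eq, mem_univ, if_true]
          rw [hS, ← Finset.mul_sum, sq, Finset.sum_mul_sum]
          simp only [Finset.mul_sum]
  have e6 : (∑ i, |a i|) ^ 2 ≤ N * S := by
    have := Finset.sum_mul_sq_le_sq_mul_sq univ (fun _ : I => (1 : ℝ)) (fun i => |a i|)
    simp only [one_mul, one_pow, sum_const, card_univ, nsmul_eq_mul, mul_one, sq_abs] at this
    exact this
  have e7 : S ^ 2 ≤ v * (1 + N * β) * S := by
    calc S ^ 2 ≤ v * S + v * β * (∑ i, |a i|) ^ 2 := by rw [e3] at e2; exact e2.trans e5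
      _ ≤ v * S + v * β * (N * S) := by
          have := mul_le_mul_of_nonneg_left e6 (mul_nonneg hv0 hβ)
          linarith
      _ = _ := by ring
  rcases hS0.eq_or_lt with h0 | h0
  · rw [← h0]
    positivity
  · rw [sq] at e7
    exact le_of_mul_le_mul_right e7 h0

end Pool.Agent.Lib_helper76.LD
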