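import Mathlib

/-!
Functions of bounded `F_2`-degree on an abelian group, through iterated derivatives; the minimum
weight of a nonzero function of degree `≤ d`.
-/

set_option autoImplicit false

namespace Pool.Agent.Lib_helper76.LD

open Finset

/-- `f` has degree at most `d`: all its derivatives of order `d + 1` vanish. -/
def LowDeg {V : Type*} [AddCommGroup V] : ℕ → (V → ZMod 2) → Prop
  | 0, f => ∀ x y, f x = f y
  | d + 1, f => ∀ h, LowDeg d (fun x => f (x + h) + f x)

variable {V : Type*} [AddCommGroup V]

theorem z2_add_self (a : ZMod 2) : a + a = 0 := CharTwo.add_self_eq_zero a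

theorem z2_ne_zero {a : ZMod 2} (h : a ≠ 0) : a = 1 := by
  revert h
  revert a
  decide

theorem LowDeg.mono_succ {d : ℕ} : ∀ {f : V → ZMod 2}, LowDeg d f → LowDeg (d + 1) f := by
  induction d with
  | zero =>
    intro f hf h x y
    have h1 : f (x + h) = f x := hf _ _
    have h2 : f (y + h) = f y := hf _ _
    simp only [h1, h2, z2_add_self]
  | succ d ih =>
    intro f hf h
    exact ih (hf h)

theorem LowDeg.mono {d e : ℕ} (hde : d ≤ e) {f : V → ZMod 2} (hf : LowDeg d f) : LowDeg e f := by
  induction hde with
  | refl => exact hf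
  | step _ ih => exact ih.mono_succ

theorem LowDeg.add {d : ℕ} : ∀ {f g : V → ZMod 2}, LowDeg d f → LowDeg d g →
    LowDeg d (fun x => f x + g x) := by
  induction d with
  | zero =>
    intro f g hf hg x y
    simp only [hf x y, hg x y]
  | succ d ih =>
    intro f g hf hg h
    have h1 := ih (hf h) (hg h)
    refine (congrArg (LowDeg d) ?_).mp h1
    funext x
    ring

theorem LowDeg.translate {d : ℕ} (v : V) : ∀ {f : V → ZMod 2}, LowDeg d f →
    LowDeg d (fun x => f (x + v)) := by
  induction d with
  | zero =>
    intro f hf x y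
    exact hf _ _
  | succ d ih =>
    intro f hf h
    have h1 := ih (hf h)
    refine (congrArg (LowDeg d) ?_).mp h1
    funext x
    simp only
    rw [add_right_comm]

theorem LowDeg.const (d : ℕ) (c : ZMod 2) : LowDeg d (fun _ : V => c) :=
  LowDeg.mono (Nat.zero_le d) (fun _ _ => rfl)

theorem LowDeg.zero_mul {b : ℕ} {f g : V → ZMod 2} (hf : LowDeg 0 f) (hg : LowDeg b g) :
    LowDeg b (fun x => f x * g x) := by
  have hc : f = fun _ => f 0 := by funext x; exact hf x 0
  rw [hc]
  rcases eq_or_ne (f 0) 0 with h | h
  · simp only [h, MulZeroClass.zero_mul]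
    exact LowDeg.const b 0
  · simp only [z2_ne_zero h, one_mul]
    exact hg

theorem LowDeg.mul : ∀ {n a b : ℕ}, a + b = n → ∀ {f g : V → ZMod 2}, LowDeg a f → LowDeg b g →
    LowDeg (a + b) (fun x => f x * g x) := by
  intro n
  induction n with
  | zero =>
    intro a b hab f g hf hg
    obtain ⟨rfl, rfl⟩ : a = 0 ∧ b = 0 := by omega
    exact hf.zero_mul hg
  | succ n ih =>
    intro a b hab f g hf hg
    rcases Nat.eq_zero_or_pos a with ha | ha
    · subst ha
      rw [Nat.zero_add]
      exact hf.zero_mul hg
    rcases Nat.eq_zero_or_pos b with hb | hb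
    · subst hb
      rw [Nat.add_zero]
      have := hg.zero_mul hf
      refine (congrArg (LowDeg a) ?_).mp this
      funext x
      ring
    obtain ⟨a, rfl⟩ : ∃ a', a = a' + 1 := ⟨a - 1, by omega⟩
    obtain ⟨b, rfl⟩ : ∃ b', b = b' + 1 := ⟨b - 1, by omega⟩
    rw [hab]
    intro h
    have h1 := ih (a := a) (b := b + 1) (by omega) (hf h) (hg.translate h)
    have h2 := ih (a := a + 1) (b := b) (by omega) hf (hg h)
    have e1 : a + (b + 1) = n := by omega
    have e2 : a + 1 + b = n := by omega
    rw [e1] at h1
    rw [e2] at h2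
    refine (congrArg (LowDeg n) ?_).mp (h1.add h2)
    funext x
    have := z2_add_self (f x * g (x + h))
    simp only
    linear_combination this

theorem LowDeg.prod {ι : Type*} (s : Finset ι) (e : ι → ℕ) (f : ι → V → ZMod 2)
    (hf : ∀ i ∈ s, LowDeg (e i) (f i)) : LowDeg (∑ i ∈ s, e i) (fun x => ∏ i ∈ s, f i x) := by
  classical
  induction s using Finset.induction_on with
  | empty => simpa using LowDeg.const (V := V) 0 1
  | insert i s hi ih =>
    simp only [Finset.sum_insert hi, Finset.prod_insert hi]
    exact LowDeg.mul rfl (hf i (Finset.mem_insert_self _ _))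
      (ih fun j hj => hf j (Finset.mem_insert_of_mem hj))

theorem LowDeg.sum {ι : Type*} (s : Finset ι) (d : ℕ) (f : ι → V → ZMod 2)
    (hf : ∀ i ∈ s, LowDeg d (f i)) : LowDeg d (fun x => ∑ i ∈ s, f i x) := by
  classical
  induction s using Finset.induction_on with
  | empty => simpa using LowDeg.const (V := V) d 0
  | insert i s hi ih =>
    simp only [Finset.sum_insert hi]
    exact (hf i (Finset.mem_insert_self _ _)).add
      (ih fun j hj => hf j (Finset.mem_insert_of_mem hj))

theorem LowDeg.pow (f : V → ZMod 2) (hf : LowDeg 1 f) (m : ℕ) : LowDeg m (fun x => f x ^ m) := by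
  induction m with
  | zero => simpa using LowDeg.const (V := V) 0 1
  | succ m ih =>
    simp only [pow_succ]
    exact LowDeg.mul rfl ih hf

/-- Coordinates have degree `≤ 1`. -/
theorem lowDeg_coord {ι : Type*} (i : ι) : LowDeg 1 (fun x : ι → ZMod 2 => x i) := by
  intro h x y
  have e : ∀ a b : ZMod 2, a + b + a = b := by decide
  simp only [Pi.add_apply, e]

/-- Polynomials of total degree `≤ d` have degree `≤ d`. -/
theorem lowDeg_mvPolynomial {ι : Type*} [Fintype ι] (P : MvPolynomial ι (ZMod 2)) (d : ℕ)
    (hP : P.totalDegree ≤ d) : LowDeg d (fun x : ι → ZMod 2 => MvPolynomial.eval x P) := by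
  classical
  have h1 : (fun x : ι → ZMod 2 => MvPolynomial.eval x P) =
      fun x => ∑ m ∈ P.support, MvPolynomial.coeff m P * ∏ i, x i ^ m i := by
    funext x
    exact MvPolynomial.eval_eq' x P
  rw [h1]
  apply LowDeg.sum
  intro m hm
  have h2 : ∑ i, m i ≤ d := by
    have := MvPolynomial.le_totalDegree hm
    have h3 : (m.sum fun _ e => e) = ∑ i, m i := Finsupp.sum_fintype _ _ (fun _ => rfl)
    omega
  have h3 : LowDeg (∑ i, m i) (fun x : ι → ZMod 2 => ∏ i, x i ^ m i) :=
    LowDeg.prod Finset.univ (fun i => m i) (fun i (x : ι → ZMod 2) => x i ^ m i)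
      (fun i _ => LowDeg.pow _ (lowDeg_coord i) _)
  exact LowDeg.zero_mul (fun _ _ => rfl) (h3.mono h2)

/-- A nonzero function of degree `≤ d` is nonzero on at least a `2 ^ (-d)` fraction. -/
theorem LowDeg.weight [Fintype V] {d : ℕ} : ∀ {f : V → ZMod 2}, LowDeg d f →
    (∃ x, f x ≠ 0) → Fintype.card V ≤ 2 ^ d * (univ.filter fun x => f x ≠ 0).card := by
  classical
  induction d with
  | zero =>
    intro f hf ⟨x, hx⟩
    have : (univ.filter fun x => f x ≠ 0) = univ := by
      ext y
      simp only [mem_filter, mem_univ, true_and, iff_true]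
      rw [hf y x]
      exact hx
    rw [this, Finset.card_univ]
    simp
  | succ d ih =>
    intro f hf hx
    by_cases hc : ∃ h x, f (x + h) + f x ≠ 0
    · obtain ⟨h, hh⟩ := hc
      have h1 := ih (hf h) hh
      have h2 : (univ.filter fun x => f (x + h) + f x ≠ 0).card ≤
          (univ.filter fun x => f x ≠ 0).card + (univ.filter fun x => f x ≠ 0).card := by
        have h3 : (univ.filter fun x => f (x + h) + f x ≠ 0) ⊆
            (univ.filter fun x => f (x + h) ≠ 0) ∪ (univ.filter fun x => f x ≠ 0) := by
          intro x hx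
          simp only [mem_union, mem_filter, mem_univ, true_and] at hx ⊢
          by_contra hcon
          push Not at hcon
          rw [hcon.1, hcon.2] at hx
          simp at hx
        have h4 : (univ.filter fun x => f (x + h) ≠ 0).card =
            (univ.filter fun x => f x ≠ 0).card := by
          refine Finset.card_bij (fun x _ => x + h) ?_ ?_ ?_
          · intro x hx
            simpa using hx
          · intro x _ y _ hxy
            simpa using hxy
          · intro y hy
            refine ⟨y - h, ?_, by simp⟩
            simpa using hy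
        calc _ ≤ _ := Finset.card_le_card h3
          _ ≤ _ := Finset.card_union_le _ _
          _ = _ := by rw [h4]
      calc Fintype.card V ≤ 2 ^ d * (univ.filter fun x => f (x + h) + f x ≠ 0).card := h1
        _ ≤ 2 ^ d * ((univ.filter fun x => f x ≠ 0).card +
            (univ.filter fun x => f x ≠ 0).card) := Nat.mul_le_mul_left _ h2
        _ = _ := by rw [pow_succ]; ring
    · push Not at hc
      have h1 : LowDeg 0 f := by
        intro x y
        have := hc (x - y) y
        rw [add_sub_cancel] at this
        have e : ∀ a b : ZMod 2, a + b = 0 → a = b := by decide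
        exact e _ _ this
      obtain ⟨x, hx⟩ := hx
      have h2 : (univ.filter fun x => f x ≠ 0) = univ := by
        ext y
        simp only [mem_filter, mem_univ, true_and, iff_true]
        rw [h1 y x]
        exact hx
      rw [h2, Finset.card_univ]
      exact Nat.le_mul_of_pos_left _ (by positivity)

end Pool.Agent.Lib_helper76.LD
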