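import Mathlib

/-!
Second moment of sums over the pairwise independent points `x + h₀ + ∑ i ∈ a, h i`.
-/

set_option autoImplicit false

namespace Pool.Agent.Lib_helper76.LD

open Finset

variable {V : Type*} [AddCommGroup V] [Fintype V]

theorem cov_zero {k : ℕ} (g : V → ℝ) (hg : ∑ v, g v = 0) (x : V) (a b : Finset (Fin k))
    (i : Fin k) (ha : i ∈ a) (hb : i ∉ b) :
    ∑ h : Fin k → V, g (x + ∑ j ∈ a, h j) * g (x + ∑ j ∈ b, h j) = 0 := by
  classical
  have h1 : ∀ v : V, ∑ h : Fin k → V, g (x + ∑ j ∈ a, h j) * g (x + ∑ j ∈ b, h j) =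
      ∑ h : Fin k → V, g (x + ∑ j ∈ a, h j + v) * g (x + ∑ j ∈ b, h j) := by
    intro v
    rw [← Equiv.sum_comp (Equiv.addRight (Pi.single i v : Fin k → V))
      (fun h : Fin k → V => g (x + ∑ j ∈ a, h j) * g (x + ∑ j ∈ b, h j))]
    refine Finset.sum_congr rfl fun h _ => ?_
    have e1 : ∑ j ∈ a, (Equiv.addRight (Pi.single i v : Fin k → V)) h j = ∑ j ∈ a, h j + v := by
      simp only [Equiv.coe_addRight, Pi.add_apply, Finset.sum_add_distrib,
        Finset.sum_pi_single', if_pos ha]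
    have e2 : ∑ j ∈ b, (Equiv.addRight (Pi.single i v : Fin k → V)) h j = ∑ j ∈ b, h j := by
      simp only [Equiv.coe_addRight, Pi.add_apply, Finset.sum_add_distrib,
        Finset.sum_pi_single', if_neg hb, add_zero]
    rw [e1, e2, ← add_assoc]
  have h2 : (Fintype.card V : ℝ) * ∑ h : Fin k → V, g (x + ∑ j ∈ a, h j) * g (x + ∑ j ∈ b, h j)
      = 0 := by
    calc (Fintype.card V : ℝ) *
          ∑ h : Fin k → V, g (x + ∑ j ∈ a, h j) * g (x + ∑ j ∈ b, h j)
        = ∑ v : V, ∑ h : Fin k → V, g (x + ∑ j ∈ a, h j) * g (x + ∑ j ∈ b, h j) := by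
          rw [Finset.sum_const, Finset.card_univ, nsmul_eq_mul]
      _ = ∑ v : V, ∑ h : Fin k → V, g (x + ∑ j ∈ a, h j + v) * g (x + ∑ j ∈ b, h j) :=
          Finset.sum_congr rfl fun v _ => h1 v
      _ = ∑ h : Fin k → V, (∑ v : V, g (x + ∑ j ∈ a, h j + v)) * g (x + ∑ j ∈ b, h j) := by
          rw [Finset.sum_comm]
          exact Finset.sum_congr rfl fun h _ => by rw [Finset.sum_mul]
      _ = 0 := by
          refine Finset.sum_eq_zero fun h _ => ?_
          have : ∑ v : V, g (x + ∑ j ∈ a, h j + v) = ∑ v : V, g v :=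
            Equiv.sum_comp (Equiv.addLeft (x + ∑ j ∈ a, h j)) g
          rw [this, hg, MulZeroClass.zero_mul]
  rcases mul_eq_zero.mp h2 with h3 | h3
  · exfalso
    have : 0 < Fintype.card V := Fintype.card_pos_iff.mpr ⟨0⟩
    rw [Nat.cast_eq_zero] at h3
    omega
  · exact h3

/-- Second moment. -/
theorem second_moment {k : ℕ} (g : V → ℝ) (hg : ∑ v, g v = 0) (x : V) :
    ∑ H : V × (Fin k → V), (∑ a : Finset (Fin k), g (x + H.1 + ∑ j ∈ a, H.2 j)) ^ 2 =
      (Fintype.card V : ℝ) ^ k * 2 ^ k * ∑ v, g v ^ 2 := by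
  classical
  have h1 : ∀ a b : Finset (Fin k), ∑ H : V × (Fin k → V),
      g (x + H.1 + ∑ j ∈ a, H.2 j) * g (x + H.1 + ∑ j ∈ b, H.2 j) =
      if a = b then (Fintype.card V : ℝ) ^ k * ∑ v, g v ^ 2 else 0 := by
    intro a b
    rw [Fintype.sum_prod_type]
    simp only
    split_ifs with hab
    · subst hab
      rw [Finset.sum_comm]
      have : ∀ h : Fin k → V, ∑ v : V, g (x + v + ∑ j ∈ a, h j) * g (x + v + ∑ j ∈ a, h j) =
          ∑ v, g v ^ 2 := by
        intro h
        rw [← Equiv.sum_comp (Equiv.addLeft (x + ∑ j ∈ a, h j)) (fun v => g v ^ 2)]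
        refine Finset.sum_congr rfl fun v _ => ?_
        simp only [Equiv.coe_addLeft]
        rw [add_right_comm, sq]
      rw [Finset.sum_congr rfl fun h _ => this h, Finset.sum_const, Finset.card_univ,
        nsmul_eq_mul, Fintype.card_fun, Fintype.card_fin, Nat.cast_pow]
    · refine Finset.sum_eq_zero fun v _ => ?_
      have : (∃ i, i ∈ a ∧ i ∉ b) ∨ (∃ i, i ∈ b ∧ i ∉ a) := by
        by_contra hcon
        push Not at hcon
        exact hab (Finset.Subset.antisymm hcon.1 hcon.2)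
      rcases this with ⟨i, hi, hi'⟩ | ⟨i, hi, hi'⟩
      · exact cov_zero g hg (x + v) a b i hi hi'
      · rw [← cov_zero g hg (x + v) b a i hi hi']
        exact Finset.sum_congr rfl fun h _ => mul_comm _ _
  calc ∑ H : V × (Fin k → V), (∑ a : Finset (Fin k), g (x + H.1 + ∑ j ∈ a, H.2 j)) ^ 2
      = ∑ H : V × (Fin k → V), ∑ a : Finset (Fin k), ∑ b : Finset (Fin k),
          g (x + H.1 + ∑ j ∈ a, H.2 j) * g (x + H.1 + ∑ j ∈ b, H.2 j) := by
        refine Finset.sum_congr rfl fun H _ => ?_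
        rw [sq, Finset.sum_mul_sum]
    _ = ∑ a : Finset (Fin k), ∑ b : Finset (Fin k), ∑ H : V × (Fin k → V),
          g (x + H.1 + ∑ j ∈ a, H.2 j) * g (x + H.1 + ∑ j ∈ b, H.2 j) := by
        rw [Finset.sum_comm]
        exact Finset.sum_congr rfl fun a _ => Finset.sum_comm
    _ = ∑ a : Finset (Fin k), (Fintype.card V : ℝ) ^ k * ∑ v, g v ^ 2 := by
        refine Finset.sum_congr rfl fun a _ => ?_
        rw [Finset.sum_congr rfl fun b _ => h1 a b, Finset.sum_ite_eq]
        simp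
    _ = _ := by
        rw [Finset.sum_const, Finset.card_univ, Fintype.card_finset, Fintype.card_fin,
          nsmul_eq_mul]
        push_cast
        ring

end Pool.Agent.Lib_helper76.LD
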