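import Mathlib
import Pool.Agent.Lib_helper76.LD.Deg
import Pool.Agent.Lib_helper76.LD.Samp
import Pool.Agent.Lib_helper76.LD.Cluster

/-!
Signs; the sampling lemma for biased functions; two functions of degree `≤ d` with the same
representative, the same sign and the same derivatives coincide.
-/

set_option autoImplicit false

namespace Pool.Agent.Lib_helper76.LD

open Finset

/-- The sign `(-1) ^ a`. -/
noncomputable def sg (a : ZMod 2) : ℝ := if a = 0 then 1 else -1

theorem sg_zero : sg 0 = 1 := by simp [sg]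

theorem sg_add (a b : ZMod 2) : sg (a + b) = sg a * sg b := by
  have h : ∀ a : ZMod 2, a = 0 ∨ a = 1 := by decide
  have h11 : (1 : ZMod 2) + 1 = 0 := by decide
  rcases h a with rfl | rfl <;> rcases h b with rfl | rfl <;> simp [sg, h11]

theorem sg_mul_self (a : ZMod 2) : sg a * sg a = 1 := by
  rw [← sg_add, z2_add_self, sg_zero]

theorem sg_pos {a : ZMod 2} (h : 0 < sg a) : a = 0 := by
  by_contra hc
  simp only [sg, if_neg hc] at h
  linarith

variable {V : Type} [AddCommGroup V] [Fintype V]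

/-- For a biased function, the sum over the sample points has the sign of the bias for almost all
points and all directions. -/
theorem few_bad {k : ℕ} (p : V → ℝ) (hp : ∀ x, p x * p x = 1) (t : ℝ) (ht : 0 < t)
    (hm : Fintype.card V * t ≤ |∑ x, p x|) (x : V) :
    ((univ.filter fun H : V × (Fin k → V) =>
      (∑ x, p x) * (∑ a : Finset (Fin k), p (x + H.1 + ∑ j ∈ a, H.2 j)) ≤ 0).card : ℝ) *
      (2 ^ k * t ^ 2) ≤ (Fintype.card V : ℝ) ^ (k + 1) := by
  classical
  set v : ℝ := (Fintype.card V : ℝ) with hv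
  have hvpos : 0 < v := by
    rw [hv]
    exact_mod_cast (Fintype.card_pos_iff.mpr ⟨(0 : V)⟩)
  set m : ℝ := ∑ x, p x with hmdef
  set μ : ℝ := m / v with hμ
  set g : V → ℝ := fun x => p x - μ with hg
  have hg0 : ∑ x, g x = 0 := by
    simp only [hg, Finset.sum_sub_distrib, Finset.sum_const, Finset.card_univ, nsmul_eq_mul]
    rw [← hmdef, ← hv, hμ]
    field_simp
    ring
  have hsm := second_moment (k := k) g hg0 x
  have hμt : t ^ 2 ≤ μ ^ 2 := by
    have h1 : t ≤ |μ| := by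
      rw [hμ, abs_div, abs_of_pos hvpos, le_div_iff₀ hvpos]
      linarith
    calc t ^ 2 ≤ |μ| ^ 2 := pow_le_pow_left₀ ht.le h1 2
      _ = μ ^ 2 := sq_abs _
  have hgsq : ∑ x, g x ^ 2 ≤ v := by
    have h1 : ∀ x, g x ^ 2 = 1 - 2 * μ * p x + μ ^ 2 := by
      intro x
      simp only [hg]
      linear_combination hp x
    simp only [h1, Finset.sum_add_distrib, Finset.sum_sub_distrib, Finset.sum_const,
      Finset.card_univ, nsmul_eq_mul, ← Finset.mul_sum]
    rw [← hmdef, ← hv]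
    have h2 : m = v * μ := by
      rw [hμ]
      field_simp
    rw [h2]
    nlinarith [mul_nonneg hvpos.le (sq_nonneg μ)]
  have hsum : ∀ H : V × (Fin k → V), ∑ a : Finset (Fin k), g (x + H.1 + ∑ j ∈ a, H.2 j) =
      (∑ a : Finset (Fin k), p (x + H.1 + ∑ j ∈ a, H.2 j)) - 2 ^ k * μ := by
    intro H
    simp only [hg, Finset.sum_sub_distrib, Finset.sum_const, Finset.card_univ, nsmul_eq_mul,
      Fintype.card_finset, Fintype.card_fin]
    push_cast
    ring
  have hbad : ∀ H ∈ (univ.filter fun H : V × (Fin k → V) =>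
      m * (∑ a : Finset (Fin k), p (x + H.1 + ∑ j ∈ a, H.2 j)) ≤ 0),
      (2 ^ k * μ) ^ 2 ≤ (∑ a : Finset (Fin k), g (x + H.1 + ∑ j ∈ a, H.2 j)) ^ 2 := by
    intro H hH
    simp only [mem_filter, mem_univ, true_and] at hH
    rw [hsum H]
    set S := ∑ a : Finset (Fin k), p (x + H.1 + ∑ j ∈ a, H.2 j)
    have h1 : μ * S ≤ 0 := by
      rw [hμ, div_mul_eq_mul_div]
      exact div_nonpos_of_nonpos_of_nonneg hH hvpos.le
    have h2 : (0 : ℝ) < 2 ^ k := by positivity
    nlinarith [sq_nonneg S, mul_nonneg h2.le (neg_nonneg.mpr h1)]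
  have h3 : ((univ.filter fun H : V × (Fin k → V) =>
      m * (∑ a : Finset (Fin k), p (x + H.1 + ∑ j ∈ a, H.2 j)) ≤ 0).card : ℝ) *
      (2 ^ k * μ) ^ 2 ≤ v ^ k * 2 ^ k * v := by
    calc _ = ∑ H ∈ (univ.filter fun H : V × (Fin k → V) =>
          m * (∑ a : Finset (Fin k), p (x + H.1 + ∑ j ∈ a, H.2 j)) ≤ 0), (2 ^ k * μ) ^ 2 := by
          rw [Finset.sum_const, nsmul_eq_mul]
      _ ≤ ∑ H ∈ (univ.filter fun H : V × (Fin k → V) =>
          m * (∑ a : Finset (Fin k), p (x + H.1 + ∑ j ∈ a, H.2 j)) ≤ 0),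
          (∑ a : Finset (Fin k), g (x + H.1 + ∑ j ∈ a, H.2 j)) ^ 2 := Finset.sum_le_sum hbad
      _ ≤ ∑ H : V × (Fin k → V), (∑ a : Finset (Fin k), g (x + H.1 + ∑ j ∈ a, H.2 j)) ^ 2 :=
          Finset.sum_le_sum_of_subset_of_nonneg (Finset.filter_subset _ _)
            (fun _ _ _ => sq_nonneg _)
      _ = v ^ k * 2 ^ k * ∑ x, g x ^ 2 := hsm
      _ ≤ _ := mul_le_mul_of_nonneg_left hgsq (by positivity)
  set B : ℝ := ((univ.filter fun H : V × (Fin k → V) =>
      m * (∑ a : Finset (Fin k), p (x + H.1 + ∑ j ∈ a, H.2 j)) ≤ 0).card : ℝ) with hB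
  have hB0 : 0 ≤ B := Nat.cast_nonneg _
  have h2k : (0 : ℝ) < 2 ^ k := by positivity
  have h4 : 2 ^ k * (B * (2 ^ k * t ^ 2)) ≤ 2 ^ k * v ^ (k + 1) := by
    calc 2 ^ k * (B * (2 ^ k * t ^ 2)) = B * (2 ^ k) ^ 2 * t ^ 2 := by ring
      _ ≤ B * (2 ^ k) ^ 2 * μ ^ 2 := mul_le_mul_of_nonneg_left hμt (by positivity)
      _ = B * (2 ^ k * μ) ^ 2 := by ring
      _ ≤ v ^ k * 2 ^ k * v := h3
      _ = _ := by ring
  exact le_of_mul_le_mul_left h4 h2k

/-- Two good functions with the same representative, the same sign and the same derivatives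
coincide. -/
theorem inj_step {d k : ℕ} (q q' c : V → ZMod 2) (hq : LowDeg d q) (hq' : LowDeg d q')
    (h0 : V) (h : Fin k → V)
    (hD0 : ∀ x, q (x + h0) + q x = q' (x + h0) + q' x)
    (hD : ∀ i x, q (x + h i) + q x = q' (x + h i) + q' x)
    (m m' : ℝ) (hmm : 0 < m ↔ 0 < m')
    (hgood : (univ.filter fun x => m * (∑ a : Finset (Fin k),
      sg (q (x + h0 + ∑ j ∈ a, h j)) * sg (c (x + h0 + ∑ j ∈ a, h j))) ≤ 0).card * 2 ^ (d + 1) <
        Fintype.card V)
    (hgood' : (univ.filter fun x => m' * (∑ a : Finset (Fin k),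
      sg (q' (x + h0 + ∑ j ∈ a, h j)) * sg (c (x + h0 + ∑ j ∈ a, h j))) ≤ 0).card * 2 ^ (d + 1) <
        Fintype.card V) : q = q' := by
  classical
  set δ : V → ZMod 2 := fun x => q x + q' x with hδ
  have e4 : ∀ a b c d : ZMod 2, a + b = c + d → a + c = b + d := by decide
  have hper0 : ∀ x, δ (x + h0) = δ x := fun x => e4 _ _ _ _ (hD0 x)
  have hper : ∀ i x, δ (x + h i) = δ x := fun i x => e4 _ _ _ _ (hD i x)
  have hpera : ∀ (a : Finset (Fin k)) x, δ (x + ∑ j ∈ a, h j) = δ x := by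
    intro a
    induction a using Finset.induction_on with
    | empty => intro x; simp
    | insert i a hi ih =>
      intro x
      rw [Finset.sum_insert hi, ← add_assoc, ih, hper]
  have hperH : ∀ (a : Finset (Fin k)) x, δ (x + h0 + ∑ j ∈ a, h j) = δ x := by
    intro a x
    rw [hpera, hper0]
  have hsum : ∀ x, ∑ a : Finset (Fin k),
      sg (q' (x + h0 + ∑ j ∈ a, h j)) * sg (c (x + h0 + ∑ j ∈ a, h j)) =
      sg (δ x) * ∑ a : Finset (Fin k),
      sg (q (x + h0 + ∑ j ∈ a, h j)) * sg (c (x + h0 + ∑ j ∈ a, h j)) := by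
    intro x
    rw [Finset.mul_sum]
    refine Finset.sum_congr rfl fun a _ => ?_
    have e5 : q' (x + h0 + ∑ j ∈ a, h j) = δ x + q (x + h0 + ∑ j ∈ a, h j) := by
      rw [← hperH a x, hδ]
      have : ∀ a b : ZMod 2, b = a + b + a := by decide
      exact this _ _
    rw [e5, sg_add]
    ring
  have hδ0 : ∀ x, δ x = 0 := by
    by_contra hcon
    push Not at hcon
    have hdeg : LowDeg d δ := hq.add hq'
    have hw := hdeg.weight hcon
    have hsub : (univ.filter fun x => δ x ≠ 0) ⊆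
        (univ.filter fun x => m * (∑ a : Finset (Fin k),
          sg (q (x + h0 + ∑ j ∈ a, h j)) * sg (c (x + h0 + ∑ j ∈ a, h j))) ≤ 0) ∪
        (univ.filter fun x => m' * (∑ a : Finset (Fin k),
          sg (q' (x + h0 + ∑ j ∈ a, h j)) * sg (c (x + h0 + ∑ j ∈ a, h j))) ≤ 0) := by
      intro x hx
      simp only [mem_union, mem_filter, mem_univ, true_and] at hx ⊢
      by_contra hcon2
      push Not at hcon2
      obtain ⟨g1, g2⟩ := hcon2
      rw [hsum x] at g2
      apply hx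
      apply sg_pos
      set S := ∑ a : Finset (Fin k),
        sg (q (x + h0 + ∑ j ∈ a, h j)) * sg (c (x + h0 + ∑ j ∈ a, h j))
      by_contra hs
      have hs' : sg (δ x) = -1 := by
        unfold sg at hs ⊢
        split_ifs with h5
        · rw [if_pos h5] at hs
          exact absurd one_pos hs
        · rfl
      rw [hs'] at g2
      rcases pos_and_pos_or_neg_and_neg_of_mul_pos g1 with ⟨hm, hS⟩ | ⟨hm, hS⟩
      · have := mul_pos (hmm.mp hm) hS
        linarith
      · have h6 : ¬ 0 < m' := fun h7 => absurd (hmm.mpr h7) (not_lt.mpr hm.le)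
        have h7 : 0 ≤ m' * S := mul_nonneg_of_nonpos_of_nonpos (not_lt.mp h6) hS.le
        linarith
    have h1 := (Finset.card_le_card hsub).trans (Finset.card_union_le _ _)
    set A := (univ.filter fun x => m * (∑ a : Finset (Fin k),
          sg (q (x + h0 + ∑ j ∈ a, h j)) * sg (c (x + h0 + ∑ j ∈ a, h j))) ≤ 0).card
    set A' := (univ.filter fun x => m' * (∑ a : Finset (Fin k),
          sg (q' (x + h0 + ∑ j ∈ a, h j)) * sg (c (x + h0 + ∑ j ∈ a, h j))) ≤ 0).card
    have h2 : 2 ^ d * (univ.filter fun x => δ x ≠ 0).card ≤ 2 ^ d * (A + A') :=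
      Nat.mul_le_mul_left _ h1
    rw [pow_succ] at hgood hgood'
    nlinarith
  funext x
  have := hδ0 x
  have e : ∀ a b : ZMod 2, a + b = 0 → a = b := by decide
  exact e _ _ this

end Pool.Agent.Lib_helper76.LD
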