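import Mathlib
import Pool.Agent.Lib_helper10.LogRank.Defs
import Pool.Agent.Lib_helper76.LD.Count

/-!
Definitions for the near-linear bound for XOR functions of bounded degree.
-/

set_option autoImplicit false

namespace Pool.Agent.Lib_helper76.LD

open Finset

/-- The iterated difference of `f` in the directions `h 0, h 1, ...` at `x`. -/
def der {V : Type*} [AddCommGroup V] {d : ℕ} (f : V → ZMod 2) (h : Fin d → V) (x : V) : ZMod 2 :=
  ∑ S : Finset (Fin d), f (x + ∑ i ∈ S, h i)

/-- Extension of scalars of a multilinear form on `(ZMod 2) ^ n` to a field of characteristic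
two: the form with the same coefficients. -/
noncomputable def extF (F : Type) [Field F] [Algebra (ZMod 2) F] {ι : Type} [Fintype ι]
    [DecidableEq ι] {n : ℕ} (T : MultilinearMap (ZMod 2) (fun _ : ι => Fin n → ZMod 2) (ZMod 2)) :
    MultilinearMap F (fun _ : ι => Fin n → F) F :=
  ∑ i : ι → Fin n, algebraMap (ZMod 2) F (T fun j => Pi.single (i j) 1) •
    (MultilinearMap.mkPiAlgebra F ι F).compLinearMap (fun j => LinearMap.proj (i j))

/-- The constant in the codimension bound. -/
def betaK : ℕ → ℕ
  | 0 => 2
  | m + 1 => if m + 1 ≤ 2 then 2 else (m + 1) * 2 ^ (m + 1) * betaK m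

/-- There is a protocol of cost `≤ B` for `f (x + y)`. -/
def XorCC {V : Type} [AddCommGroup V] (f : V → ZMod 2) (B : ℕ) : Prop :=
  ∃ π : Pool.Agent.Lib_helper10.LogRank.Protocol V V,
    (∀ x y, π.eval x y = decide (f (x + y) = 1)) ∧ π.cost ≤ B

end Pool.Agent.Lib_helper76.LD
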