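import Mathlib
import Pool.Agent.Lib_helper76.LD.Cluster
import Pool.Agent.Lib_helper62.LD.FA
import Pool.Agent.Lib_helper62.LD.FB

/-!
Forster's bound for almost orthogonal sign vectors.
-/

set_option autoImplicit false

namespace Pool.Agent.Lib_helper76.LD

open Finset

/-- The final inequality in Forster's theorem. -/
theorem forster_ineq {V I : Type} [Fintype V] [Fintype I] (R : ℕ) (hR : 1 ≤ R)
    (hv : 0 < Fintype.card V) (s : V → I → ℝ) (hs : ∀ x i, s x i * s x i = 1)
    (hc : ∀ i j, i ≠ j → |∑ x, s x i * s x j| ≤ Fintype.card V * (1 / (2 * (R : ℝ) ^ 2)))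
    (a : V → Fin R → ℝ) (w : I → Fin R → ℝ)
    (ha : ∀ x, ∑ j, a x j ^ 2 = (R : ℝ) / Fintype.card V)
    (hiso : ∀ v : Fin R → ℝ, ∑ x, (∑ j, a x j * v j) ^ 2 = ∑ j, v j ^ 2)
    (hw : ∀ i, ∑ j, w i j ^ 2 = 1)
    (hpos : ∀ x i, 0 < s x i * ∑ j, a x j * w i j) :
    Fintype.card I ≤ 2 * R ^ 2 := by
  classical
  set v : ℝ := (Fintype.card V : ℝ) with hvdef
  set T : ℝ := (Fintype.card I : ℝ) with hTdef
  set β : ℝ := 1 / (2 * (R : ℝ) ^ 2) with hβ
  have hv0 : 0 < v := by rw [hvdef]; exact_mod_cast hv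
  have hT0 : 0 ≤ T := Nat.cast_nonneg _
  have hR0 : (0 : ℝ) < R := by exact_mod_cast hR
  have hβ0 : 0 ≤ β := by positivity
  set κ : ℝ := Real.sqrt (R / v) with hκ
  have hκ2 : κ ^ 2 = R / v := Real.sq_sqrt (by positivity)
  have hκ0 : 0 < κ := Real.sqrt_pos.mpr (by positivity)
  set S : ℝ := ∑ i, ∑ x, s x i * ∑ j, a x j * w i j with hS
  -- lower bound
  have h1 : ∀ x i, (∑ j, a x j * w i j) ^ 2 ≤ κ * (s x i * ∑ j, a x j * w i j) := by
    intro x i
    set t := ∑ j, a x j * w i j with ht
    have e1 : t ^ 2 ≤ κ ^ 2 := by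
      have := Finset.sum_mul_sq_le_sq_mul_sq univ (a x) (w i)
      rw [ha, hw, mul_one] at this
      rw [hκ2]
      exact this
    have e2 : |t| ≤ κ := abs_le_of_sq_le_sq e1 hκ0.le
    have e3 : s x i * t = |t| := by
      have e4 : |s x i * t| = |t| := by
        rw [abs_mul]
        have : |s x i| = 1 := by
          rcases mul_self_eq_one_iff.mp (hs x i) with h | h <;> rw [h] <;> simp
        rw [this, one_mul]
      rw [← e4, abs_of_pos (hpos x i)]
    rw [e3, ← sq_abs, sq]
    exact mul_le_mul_of_nonneg_right e2 (abs_nonneg _)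
  have h2 : T ≤ κ * S := by
    calc T = ∑ i : I, (1 : ℝ) := by
          rw [Finset.sum_const, Finset.card_univ, nsmul_eq_mul, mul_one]
      _ = ∑ i, ∑ x, (∑ j, a x j * w i j) ^ 2 :=
          Finset.sum_congr rfl fun i _ => by rw [hiso, hw]
      _ ≤ ∑ i, ∑ x, κ * (s x i * ∑ j, a x j * w i j) :=
          Finset.sum_le_sum fun i _ => Finset.sum_le_sum fun x _ => h1 x i
      _ = κ * S := by
          rw [hS, Finset.mul_sum]
          exact Finset.sum_congr rfl fun i _ => by rw [Finset.mul_sum]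
  -- upper bound
  have h3 : S = ∑ p : V × Fin R, a p.1 p.2 * ∑ i, s p.1 i * w i p.2 := by
    rw [hS, Finset.sum_comm, Fintype.sum_prod_type]
    refine Finset.sum_congr rfl fun x _ => ?_
    simp only [Finset.mul_sum]
    rw [Finset.sum_comm]
    exact Finset.sum_congr rfl fun j _ => Finset.sum_congr rfl fun i _ => by ring
  have h4 : S ^ 2 ≤ R * ∑ p : V × Fin R, (∑ i, s p.1 i * w i p.2) ^ 2 := by
    have := Finset.sum_mul_sq_le_sq_mul_sq univ (fun p : V × Fin R => a p.1 p.2)
      (fun p => ∑ i, s p.1 i * w i p.2)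
    rw [← h3] at this
    have e : ∑ p : V × Fin R, a p.1 p.2 ^ 2 = R := by
      rw [Fintype.sum_prod_type]
      simp only [ha, Finset.sum_const, Finset.card_univ, nsmul_eq_mul]
      rw [← hvdef]
      field_simp
    rw [e] at this
    exact this
  have h5 : ∑ p : V × Fin R, (∑ i, s p.1 i * w i p.2) ^ 2 =
      ∑ i, ∑ i', (∑ j, w i j * w i' j) * ∑ x, s x i * s x i' := by
    calc ∑ p : V × Fin R, (∑ i, s p.1 i * w i p.2) ^ 2
        = ∑ p : V × Fin R, ∑ i, ∑ i', (s p.1 i * w i p.2) * (s p.1 i' * w i' p.2) := by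
          refine Finset.sum_congr rfl fun p _ => ?_
          rw [sq, Finset.sum_mul_sum]
      _ = ∑ i, ∑ i', ∑ p : V × Fin R, (s p.1 i * w i p.2) * (s p.1 i' * w i' p.2) := by
          rw [Finset.sum_comm]
          exact Finset.sum_congr rfl fun i _ => Finset.sum_comm
      _ = _ := by
          refine Finset.sum_congr rfl fun i _ => Finset.sum_congr rfl fun i' _ => ?_
          rw [Fintype.sum_prod_type, Finset.sum_mul_sum, Finset.sum_comm]
          exact Finset.sum_congr rfl fun j _ => Finset.sum_congr rfl fun x _ => by ring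
  have h6 : ∑ i, ∑ i', (∑ j, w i j * w i' j) * ∑ x, s x i * s x i' ≤ v * T * (1 + β * T) := by
    have e1 : ∀ i i', (∑ j, w i j * w i' j) * ∑ x, s x i * s x i' ≤
        (if i = i' then v else 0) + v * β := by
      intro i i'
      split_ifs with h
      · subst h
        have e2 : ∑ j, w i j * w i j = 1 := by
          rw [← hw i]
          exact Finset.sum_congr rfl fun j _ => by ring
        have e3 : ∑ x, s x i * s x i = v := by
          simp only [hs, Finset.sum_const, Finset.card_univ, nsmul_eq_mul, mul_one, hvdef]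
        rw [e2, e3, one_mul]
        have : 0 ≤ v * β := mul_nonneg hv0.le hβ0
        linarith
      · rw [zero_add]
        have e2 : |∑ j, w i j * w i' j| ≤ 1 := by
          have := Finset.sum_mul_sq_le_sq_mul_sq univ (w i) (w i')
          rw [hw, hw, mul_one] at this
          exact abs_le_one_iff_mul_self_le_one.mpr (by rw [← sq]; exact this)
        calc (∑ j, w i j * w i' j) * ∑ x, s x i * s x i'
            ≤ |(∑ j, w i j * w i' j) * ∑ x, s x i * s x i'| := le_abs_self _
          _ = |∑ j, w i j * w i' j| * |∑ x, s x i * s x i'| := abs_mul _ _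
          _ ≤ 1 * (v * β) := mul_le_mul e2 (hc i i' h) (abs_nonneg _) zero_le_one
          _ = v * β := one_mul _
    calc ∑ i, ∑ i', (∑ j, w i j * w i' j) * ∑ x, s x i * s x i'
        ≤ ∑ i : I, ∑ i' : I, ((if i = i' then v else 0) + v * β) :=
          Finset.sum_le_sum fun i _ => Finset.sum_le_sum fun i' _ => e1 i i'
      _ = v * T * (1 + β * T) := by
          simp only [Finset.sum_add_distrib, Finset.sum_ite_eq, mem_univ, if_true,
            Finset.sum_const, Finset.card_univ, nsmul_eq_mul, ← hTdef]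
          ring
  have h7 : T ^ 2 ≤ (R : ℝ) ^ 2 * (1 + β * T) * T := by
    have e1 : T ^ 2 ≤ (κ * S) ^ 2 := pow_le_pow_left₀ hT0 h2 2
    have e2 : (κ * S) ^ 2 ≤ R / v * (R * (v * T * (1 + β * T))) := by
      rw [mul_pow, hκ2]
      apply mul_le_mul_of_nonneg_left _ (by positivity)
      rw [h5] at h4
      exact h4.trans (mul_le_mul_of_nonneg_left h6 hR0.le)
    have e3 : R / v * (R * (v * T * (1 + β * T))) = (R : ℝ) ^ 2 * (1 + β * T) * T := by
      field_simp
    linarith
  have h8 : T ≤ 2 * (R : ℝ) ^ 2 := by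
    rcases hT0.eq_or_lt with h0 | h0
    · rw [← h0]
      positivity
    · rw [sq T] at h7
      have h9 : T ≤ (R : ℝ) ^ 2 * (1 + β * T) := le_of_mul_le_mul_right h7 h0
      have h10 : (R : ℝ) ^ 2 * (1 + β * T) = (R : ℝ) ^ 2 + T / 2 := by
        rw [hβ]
        field_simp
      linarith
  rw [hTdef] at h8
  exact_mod_cast h8

/-- Almost orthogonal sign vectors with a sign representation of inner dimension `R` are at most
`2 R ^ 2`. -/
theorem cluster_sign {V I : Type} [Fintype V] [Nonempty V] [Fintype I] (R : ℕ) (hR : 1 ≤ R)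
    (s g : V → I → ℝ) (hs : ∀ x i, s x i * s x i = 1) (hg : ∀ x i, 0 < s x i * g x i)
    (hrank : Fac R g)
    (hc : ∀ i j, i ≠ j → |∑ x, s x i * s x j| ≤ Fintype.card V * (1 / (2 * (R : ℝ) ^ 2))) :
    Fintype.card I ≤ 2 * R ^ 2 := by
  classical
  rcases Nat.lt_or_ge R (Fintype.card V) with hRV | hRV
  · obtain ⟨A, B, hG⟩ := hrank
    obtain ⟨A', h1, h2⟩ := gen_pos_pr R A B s (fun x i => by rw [← hG]; exact hg x i)
    obtain ⟨c, C, hc0, hC, ha, hiso⟩ := isotropic_pr R hR hRV A' h2
    set a : V → Fin R → ℝ := fun x j => c x * (C.mulVec (A' x)) j with hadef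
    set b : I → Fin R → ℝ := fun i => (C⁻¹.transpose).mulVec (fun j => B j i) with hbdef
    have hab : ∀ x i, ∑ j, a x j * b i j = c x * ∑ j, A' x j * B j i := by
      intro x i
      have e1 : ∑ j, a x j * b i j = c x * (C.mulVec (A' x) ⬝ᵥ b i) := by
        simp only [hadef, dotProduct, Finset.mul_sum]
        exact Finset.sum_congr rfl fun j _ => by ring
      rw [e1]
      congr 1
      rw [hbdef]
      simp only
      rw [Matrix.mulVec_transpose, dotProduct_comm, ← Matrix.dotProduct_mulVec,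
        Matrix.mulVec_mulVec, Matrix.nonsing_inv_mul _ (Ne.isUnit hC), Matrix.one_mulVec,
        dotProduct_comm]
      rfl
    obtain ⟨x₀⟩ := ‹Nonempty V›
    have hbn : ∀ i, 0 < ∑ j, b i j ^ 2 := by
      intro i
      rcases (Finset.sum_nonneg fun j _ => sq_nonneg (b i j) : 0 ≤ ∑ j, b i j ^ 2).eq_or_lt with
        h | h
      · exfalso
        have h3 : ∀ j, b i j = 0 := by
          intro j
          have := (Finset.sum_eq_zero_iff_of_nonneg (fun j _ => sq_nonneg (b i j))).mp h.symm j
            (Finset.mem_univ j)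
          exact pow_eq_zero_iff (two_ne_zero) |>.mp this
        have h4 := hab x₀ i
        simp only [h3, mul_zero, Finset.sum_const_zero] at h4
        have h5 := h1 x₀ i
        rcases mul_eq_zero.mp h4.symm with h6 | h6
        · exact absurd h6 (hc0 x₀).ne'
        · rw [h6, mul_zero] at h5
          exact lt_irrefl _ h5
      · exact h
    set w : I → Fin R → ℝ := fun i j => b i j / Real.sqrt (∑ j, b i j ^ 2) with hwdef
    refine forster_ineq R hR (by omega) s hs hc a w (fun x => ha x) (fun v => hiso v) ?_ ?_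
    · intro i
      simp only [hwdef, div_pow]
      rw [← Finset.sum_div, Real.sq_sqrt (hbn i).le, div_self (hbn i).ne']
    · intro x i
      have e1 : ∑ j, a x j * w i j = (c x * ∑ j, A' x j * B j i) / Real.sqrt (∑ j, b i j ^ 2) := by
        rw [← hab, Finset.sum_div]
        exact Finset.sum_congr rfl fun j _ => by simp only [hwdef]; ring
      rw [e1]
      have e2 : s x i * ((c x * ∑ j, A' x j * B j i) / Real.sqrt (∑ j, b i j ^ 2)) =
          c x * (s x i * ∑ j, A' x j * B j i) / Real.sqrt (∑ j, b i j ^ 2) := by ring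
      rw [e2]
      exact div_pos (mul_pos (hc0 x) (h1 x i)) (Real.sqrt_pos.mpr (hbn i))
  · obtain ⟨x₀⟩ := ‹Nonempty V›
    have hR0 : (0 : ℝ) < R := by exact_mod_cast hR
    have hR1 : (1 : ℝ) ≤ R := by exact_mod_cast hR
    have h1 := near_bessel s (1 / (2 * (R : ℝ) ^ 2)) (by positivity)
      (fun i => by
        simp only [hs, Finset.sum_const, Finset.card_univ, nsmul_eq_mul, mul_one]
        exact le_rfl) hc (fun x => if x = x₀ then 1 else 0) (by simp)
    have h2 : ∑ i, (∑ x, s x i * (if x = x₀ then (1 : ℝ) else 0)) ^ 2 = Fintype.card I := by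
      have : ∀ i, (∑ x, s x i * (if x = x₀ then (1 : ℝ) else 0)) ^ 2 = 1 := by
        intro i
        simp only [mul_ite, mul_one, mul_zero, Finset.sum_ite_eq', mem_univ, if_true]
        rw [sq, hs]
      simp only [this, Finset.sum_const, Finset.card_univ, nsmul_eq_mul, mul_one]
    rw [h2] at h1
    set T : ℝ := (Fintype.card I : ℝ) with hT
    have hT0 : 0 ≤ T := Nat.cast_nonneg _
    have hVR : (Fintype.card V : ℝ) ≤ R := by exact_mod_cast hRV
    have h3 : T ≤ R * (1 + T * (1 / (2 * (R : ℝ) ^ 2))) :=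
      h1.trans (mul_le_mul_of_nonneg_right hVR (by positivity))
    have h4 : R * (1 + T * (1 / (2 * (R : ℝ) ^ 2))) = R + T / (2 * R) := by
      field_simp
    have h5 : T / (2 * R) ≤ T / 2 := by
      apply div_le_div_of_nonneg_left hT0 (by norm_num)
      linarith
    have h6 : T ≤ 2 * (R : ℝ) ^ 2 := by nlinarith
    rw [hT] at h6
    exact_mod_cast h6

end Pool.Agent.Lib_helper76.LD
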