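import Mathlib
import Pool.Agent.Lib_helper76.LD.Count
import Pool.Agent.Lib_helper76.LD.ClusterS

/-!
The counting theorem with sign rank: the number of functions of degree `≤ d` whose sign matrix has
sign rank `≤ 2 ^ L` is at most `2 ^ bdS d L`, where `bdS d L` is of order `L ^ d`.
-/

set_option autoImplicit false

namespace Pool.Agent.Lib_helper76.LD

open Finset

/-- The exponent in the counting theorem. -/
def bdS : ℕ → ℕ → ℕ
  | 0, _ => 1
  | d + 1, L => 2 * L + 3 + (4 * L + d + 6) * bdS d (2 * L)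

variable {V : Type} [AddCommGroup V] [Fintype V]

/-- Many directions are good for a given biased function. -/
theorem many_goodS {k D L : ℕ} (hk : 4 * L + D + 4 ≤ k) (p : V → ℝ) (hp : ∀ x, p x * p x = 1)
    (hm : Fintype.card V * (1 / (2 * ((2 ^ L : ℕ) : ℝ) ^ 2)) ≤ |∑ x, p x|) :
    Fintype.card (V × (Fin k → V)) ≤
      2 * (univ.filter fun H : V × (Fin k → V) =>
        (univ.filter fun x => (∑ x, p x) * (∑ a : Finset (Fin k), p (x + H.1 + ∑ j ∈ a, H.2 j))
          ≤ 0).card * 2 ^ (D + 1) < Fintype.card V).card := by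
  classical
  set bad : V → V × (Fin k → V) → Prop := fun x H =>
    (∑ x, p x) * (∑ a : Finset (Fin k), p (x + H.1 + ∑ j ∈ a, H.2 j)) ≤ 0 with hbad
  have h1 : ∀ x, (univ.filter fun H => bad x H).card * 2 ^ (D + 2) ≤
      Fintype.card V ^ (k + 1) := by
    intro x
    have h := few_bad (k := k) p hp (1 / (2 * ((2 ^ L : ℕ) : ℝ) ^ 2)) (by positivity) hm x
    have e1 : (2 : ℝ) ^ (D + 2) ≤ 2 ^ k * (1 / (2 * ((2 ^ L : ℕ) : ℝ) ^ 2)) ^ 2 := by
      have e2 : (2 : ℝ) ^ k * (1 / (2 * ((2 ^ L : ℕ) : ℝ) ^ 2)) ^ 2 = 2 ^ k / 2 ^ (4 * L + 2) := by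
        push_cast
        rw [pow_add, show 4 * L = L * 2 * 2 by ring, pow_mul, pow_mul]
        field_simp
      rw [e2, le_div_iff₀ (by positivity), ← pow_add]
      exact pow_le_pow_right₀ (by norm_num) (by omega)
    have e3 : ((univ.filter fun H => bad x H).card : ℝ) * 2 ^ (D + 2) ≤
        (Fintype.card V : ℝ) ^ (k + 1) :=
      le_trans (mul_le_mul_of_nonneg_left e1 (Nat.cast_nonneg _)) h
    exact_mod_cast e3
  have h2 : (∑ H : V × (Fin k → V), (univ.filter fun x => bad x H).card) * 2 ^ (D + 2) ≤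
      Fintype.card V * Fintype.card V ^ (k + 1) := by
    have e1 : ∑ H : V × (Fin k → V), (univ.filter fun x => bad x H).card =
        ∑ x : V, (univ.filter fun H => bad x H).card := by
      simp only [Finset.card_filter]
      exact Finset.sum_comm
    rw [e1, Finset.sum_mul]
    calc ∑ x : V, (univ.filter fun H => bad x H).card * 2 ^ (D + 2)
        ≤ ∑ x : V, Fintype.card V ^ (k + 1) := Finset.sum_le_sum fun x _ => h1 x
      _ = _ := by rw [Finset.sum_const, Finset.card_univ, smul_eq_mul]
  have hcard : Fintype.card (V × (Fin k → V)) = Fintype.card V ^ (k + 1) := by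
    rw [Fintype.card_prod, Fintype.card_fun, Fintype.card_fin, pow_succ, mul_comm]
  set good := (univ.filter fun H : V × (Fin k → V) =>
    (univ.filter fun x => bad x H).card * 2 ^ (D + 1) < Fintype.card V) with hgood
  set ng := (univ.filter fun H : V × (Fin k → V) =>
    ¬ (univ.filter fun x => bad x H).card * 2 ^ (D + 1) < Fintype.card V) with hng
  have hsplit : good.card + ng.card = Fintype.card (V × (Fin k → V)) := by
    rw [hgood, hng, Finset.card_filter_add_card_filter_not, Finset.card_univ]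
  have h3 : ng.card * Fintype.card V ≤
      ∑ H : V × (Fin k → V), (univ.filter fun x => bad x H).card * 2 ^ (D + 1) := by
    calc ng.card * Fintype.card V = ∑ H ∈ ng, Fintype.card V := by
          rw [Finset.sum_const, smul_eq_mul]
      _ ≤ ∑ H ∈ ng, (univ.filter fun x => bad x H).card * 2 ^ (D + 1) := by
          refine Finset.sum_le_sum fun H hH => ?_
          have := (Finset.mem_filter.mp hH).2
          exact not_lt.mp this
      _ ≤ _ := Finset.sum_le_sum_of_subset (Finset.subset_univ _)
  have h4 : 2 * ng.card * Fintype.card V ≤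
      Fintype.card (V × (Fin k → V)) * Fintype.card V := by
    rw [← Finset.sum_mul] at h3
    calc 2 * ng.card * Fintype.card V = 2 * (ng.card * Fintype.card V) := by ring
      _ ≤ 2 * ((∑ H : V × (Fin k → V), (univ.filter fun x => bad x H).card) * 2 ^ (D + 1)) :=
          Nat.mul_le_mul_left _ h3
      _ = (∑ H : V × (Fin k → V), (univ.filter fun x => bad x H).card) * 2 ^ (D + 2) := by ring
      _ ≤ Fintype.card V * Fintype.card V ^ (k + 1) := h2
      _ = _ := by rw [hcard, mul_comm]
  have hV : 0 < Fintype.card V := Fintype.card_pos_iff.mpr ⟨(0 : V)⟩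
  have h5 : 2 * ng.card ≤ Fintype.card (V × (Fin k → V)) := Nat.le_of_mul_le_mul_right h4 hV
  omega

/-- Representatives of clusters. -/
theorem exists_repsS {Y : Type} [Fintype Y] (L : ℕ) (q : Y → V → ZMod 2) (G : V → Y → ℝ)
    (hG : ∀ x y, 0 < sg (q y x) * G x y) (hr : Fac (2 ^ L) G) :
    ∃ (T : Finset Y) (c : Y → Y), T.card ≤ 2 * (2 ^ L) ^ 2 ∧ (∀ y, c y ∈ T) ∧
      ∀ y, Fintype.card V * (1 / (2 * ((2 ^ L : ℕ) : ℝ) ^ 2)) ≤
        |∑ x, sg (q y x) * sg (q (c y) x)| := by
  classical
  set thr : ℝ := Fintype.card V * (1 / (2 * ((2 ^ L : ℕ) : ℝ) ^ 2)) with hthr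
  have : Nonempty V := ⟨0⟩
  set P : Finset Y → Prop := fun T => ∀ y ∈ T, ∀ y' ∈ T, y ≠ y' →
    |∑ x, sg (q y x) * sg (q y' x)| ≤ thr with hP
  have hne : (univ.filter P : Finset (Finset Y)).Nonempty :=
    ⟨∅, by simp [hP]⟩
  obtain ⟨T, hT, hmax⟩ := Finset.exists_max_image _ Finset.card hne
  have hPT : P T := (Finset.mem_filter.mp hT).2
  have hex : ∀ y, ∃ y' ∈ T, thr ≤ |∑ x, sg (q y x) * sg (q y' x)| := by
    intro y
    by_contra hcon
    push Not at hcon
    have hself : thr ≤ |∑ x, sg (q y x) * sg (q y x)| := by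
      simp only [sg_mul_self, Finset.sum_const, Finset.card_univ, nsmul_eq_mul, mul_one]
      rw [abs_of_nonneg (Nat.cast_nonneg _), hthr]
      have h1 : (1 : ℝ) / (2 * ((2 ^ L : ℕ) : ℝ) ^ 2) ≤ 1 := by
        rw [div_le_one (by positivity)]
        have : (1 : ℝ) ≤ ((2 ^ L : ℕ) : ℝ) := by
          exact_mod_cast Nat.one_le_two_pow
        nlinarith
      calc (Fintype.card V : ℝ) * (1 / (2 * ((2 ^ L : ℕ) : ℝ) ^ 2)) ≤ Fintype.card V * 1 :=
            mul_le_mul_of_nonneg_left h1 (Nat.cast_nonneg _)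
        _ = _ := mul_one _
    have hyT : y ∉ T := fun hy => absurd hself (not_le.mpr (hcon y hy))
    have hins : P (insert y T) := by
      intro a ha b hb hab
      rcases Finset.mem_insert.mp ha with ha' | ha'
      · rcases Finset.mem_insert.mp hb with hb' | hb'
        · exact absurd (ha'.trans hb'.symm) hab
        · rw [ha']
          exact (hcon b hb').le
      · rcases Finset.mem_insert.mp hb with hb' | hb'
        · have := (hcon a ha').le
          have e : ∑ x, sg (q a x) * sg (q b x) = ∑ x, sg (q y x) * sg (q a x) := by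
            rw [hb']
            exact Finset.sum_congr rfl fun x _ => mul_comm _ _
          rw [e]
          exact this
        · exact hPT a ha' b hb' hab
    have := hmax (insert y T) (Finset.mem_filter.mpr ⟨Finset.mem_univ _, hins⟩)
    rw [Finset.card_insert_of_notMem hyT] at this
    omega
  choose c hc using hex
  refine ⟨T, c, ?_, fun y => (hc y).1, fun y => (hc y).2⟩
  have hcl := cluster_sign (V := V) (I := T) (2 ^ L) Nat.one_le_two_pow
    (fun x i => sg (q i x)) (fun x i => G x i) (fun x i => sg_mul_self _)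
    (fun x i => hG x i) (hr.sub_maps id (fun i : T => (i : Y))) (by
      intro i j hij
      exact hPT i i.2 j j.2 (fun h => hij (Subtype.ext h)))
  rwa [Fintype.card_coe] at hcl

omit [Fintype V] in
/-- From injective families to all families. -/
theorem image_of_injS (d L B : ℕ)
    (H : ∀ (Y : Type) [Fintype Y] (q : Y → V → ZMod 2), Function.Injective q →
      (∀ y, LowDeg d (q y)) → ∀ (G : V → Y → ℝ),
      (∀ x y, 0 < sg (q y x) * G x y) → Fac (2 ^ L) G → Fintype.card Y ≤ B)
    (Y : Type) [Fintype Y] [DecidableEq (V → ZMod 2)] (q : Y → V → ZMod 2)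
    (hq : ∀ y, LowDeg d (q y)) (G : V → Y → ℝ)
    (hG : ∀ x y, 0 < sg (q y x) * G x y) (hr : Fac (2 ^ L) G) :
    (univ.image q).card ≤ B := by
  have hc : ∀ f : (univ.image q : Finset (V → ZMod 2)), ∃ y, q y = f := by
    intro f
    obtain ⟨y, _, hy⟩ := Finset.mem_image.mp f.2
    exact ⟨y, hy⟩
  choose c hc using hc
  have := H (univ.image q : Finset (V → ZMod 2)) (fun f => (f : V → ZMod 2))
    Subtype.val_injective (fun f => by
      rw [← hc f]
      exact hq _) (fun x f => G x (c f)) (fun x f => by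
      have h1 := hG x (c f)
      rw [hc f] at h1
      exact h1) (hr.sub_maps id c)
  rwa [Fintype.card_coe] at this

/-- **Counting theorem.** -/
theorem countS (d : ℕ) : ∀ (L : ℕ) (Y : Type) [Fintype Y] [DecidableEq (V → ZMod 2)]
    (q : Y → V → ZMod 2), (∀ y, LowDeg d (q y)) → ∀ (G : V → Y → ℝ),
    (∀ x y, 0 < sg (q y x) * G x y) → Fac (2 ^ L) G →
    (univ.image q).card ≤ 2 ^ bdS d L := by
  classical
  induction d with
  | zero =>
    intro L Y _ _ q hq G _ _
    have h1 : univ.image q ⊆ {fun _ => 0, fun _ => 1} := by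
      intro f hf
      obtain ⟨y, _, rfl⟩ := Finset.mem_image.mp hf
      have h2 : q y = fun _ => q y 0 := by
        funext x
        exact hq y x 0
      have h3 : ∀ a : ZMod 2, a = 0 ∨ a = 1 := by decide
      rw [Finset.mem_insert, Finset.mem_singleton]
      rcases h3 (q y 0) with h4 | h4
      · left
        rw [h2, h4]
      · right
        rw [h2, h4]
    calc (univ.image q).card ≤ _ := Finset.card_le_card h1
      _ ≤ 2 := Finset.card_le_two
      _ = 2 ^ bdS 0 L := rfl
  | succ d ih =>
    intro L Y _ _ q hq G hG hr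
    refine image_of_injS (d + 1) L _ ?_ Y q hq G hG hr
    intro Y _ q hinj hq G hG hr
    obtain ⟨T, c, hT, hcT, hc⟩ := exists_repsS L q G hG hr
    set k : ℕ := 4 * L + (d + 1) + 4 with hk
    set m : Y → ℝ := fun y => ∑ x, sg (q y x) * sg (q (c y) x) with hm
    -- derivative families
    have hder : ∀ h : V, (univ.image fun y => fun x => q y (x + h) + q y x).card ≤
        2 ^ bdS d (2 * L) := by
      intro h
      apply ih (2 * L) Y (fun y => fun x => q y (x + h) + q y x) (fun y => hq y h)
        (fun x y => G (x + h) y * G x y)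
      · intro x y
        rw [sg_add]
        have e1 := mul_pos (hG (x + h) y) (hG x y)
        have e2 : sg (q y (x + h)) * sg (q y x) * (G (x + h) y * G x y) =
            sg (q y (x + h)) * G (x + h) y * (sg (q y x) * G x y) := by ring
        rw [e2]
        exact e1
      · have := (hr.sub_maps (fun x : V => x + h) (id : Y → Y)).mul hr
        rw [← pow_add] at this
        have e : L + L = 2 * L := by ring
        rw [e] at this
        exact this
    -- many good directions
    have hgood : ∀ y, Fintype.card (V × (Fin k → V)) ≤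
        2 * (univ.filter fun H : V × (Fin k → V) =>
        (univ.filter fun x => m y * (∑ a : Finset (Fin k),
          sg (q y (x + H.1 + ∑ j ∈ a, H.2 j)) * sg (q (c y) (x + H.1 + ∑ j ∈ a, H.2 j))) ≤ 0).card
          * 2 ^ (d + 1 + 1) < Fintype.card V).card := by
      intro y
      exact many_goodS (k := k) (D := d + 1) (L := L) (by omega)
        (fun x => sg (q y x) * sg (q (c y) x)) (fun x => by
          have e1 := sg_mul_self (q y x)
          have e2 := sg_mul_self (q (c y) x)
          calc sg (q y x) * sg (q (c y) x) * (sg (q y x) * sg (q (c y) x)) =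
              (sg (q y x) * sg (q y x)) * (sg (q (c y) x) * sg (q (c y) x)) := by ring
            _ = 1 := by rw [e1, e2, mul_one]) (hc y)
    set Z : V × (Fin k → V) → Finset Y := fun H => univ.filter fun y =>
        (univ.filter fun x => m y * (∑ a : Finset (Fin k),
          sg (q y (x + H.1 + ∑ j ∈ a, H.2 j)) * sg (q (c y) (x + H.1 + ∑ j ∈ a, H.2 j))) ≤ 0).card
          * 2 ^ (d + 1 + 1) < Fintype.card V with hZ
    -- a good choice of directions
    have hav : ∃ H, Fintype.card Y ≤ 2 * (Z H).card := by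
      by_contra hcon
      push Not at hcon
      have h1 : ∑ H : V × (Fin k → V), 2 * (Z H).card <
          ∑ H : V × (Fin k → V), Fintype.card Y := by
        apply Finset.sum_lt_sum_of_nonempty ⟨(0, fun _ => 0), Finset.mem_univ _⟩
        intro H _
        exact hcon H
      have h2 : ∑ y : Y, Fintype.card (V × (Fin k → V)) ≤
          ∑ H : V × (Fin k → V), 2 * (Z H).card := by
        calc ∑ y : Y, Fintype.card (V × (Fin k → V)) ≤ _ := Finset.sum_le_sum fun y _ => hgood y
          _ = ∑ H : V × (Fin k → V), 2 * (Z H).card := by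
            rw [← Finset.mul_sum, ← Finset.mul_sum]
            congr 1
            simp only [hZ, Finset.card_filter _ (univ : Finset (V × (Fin k → V))),
              Finset.card_filter _ (univ : Finset Y)]
            exact Finset.sum_comm
      rw [Finset.sum_const, Finset.card_univ, smul_eq_mul] at h1 h2
      rw [mul_comm] at h2
      omega
    obtain ⟨H, hH⟩ := hav
    -- count the good functions for these directions
    set D : V → Finset (V → ZMod 2) := fun h => univ.image fun y => fun x => q y (x + h) + q y x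
      with hD
    set Φ : Y → Y × Bool × (V → ZMod 2) × (Fin k → V → ZMod 2) := fun y =>
      (c y, decide (0 < m y), (fun x => q y (x + H.1) + q y x),
        fun i x => q y (x + H.2 i) + q y x) with hΦ
    set Tgt : Finset (Y × Bool × (V → ZMod 2) × (Fin k → V → ZMod 2)) :=
      T ×ˢ (univ : Finset Bool) ×ˢ (D H.1) ×ˢ (Fintype.piFinset fun i => D (H.2 i)) with hTgt
    have hmaps : ∀ y ∈ Z H, Φ y ∈ Tgt := by
      intro y _
      simp only [hTgt, hΦ, Finset.mem_product, Fintype.mem_piFinset]
      refine ⟨hcT y, Finset.mem_univ _, ?_, fun i => ?_⟩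
      · exact Finset.mem_image_of_mem _ (Finset.mem_univ y)
      · exact Finset.mem_image_of_mem _ (Finset.mem_univ y)
    have hinjΦ : Set.InjOn Φ (Z H) := by
      intro y hy y' hy' hyy
      have hy := (Finset.mem_filter.mp (Finset.mem_coe.mp hy)).2
      have hy' := (Finset.mem_filter.mp (Finset.mem_coe.mp hy')).2
      simp only [hΦ, Prod.mk.injEq] at hyy
      obtain ⟨e1, e2, e3, e4⟩ := hyy
      rw [← e1] at hy'
      apply hinj
      refine inj_step (d := d + 1) (k := k) (q y) (q y') (q (c y)) (hq y) (hq y') H.1 H.2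
        (fun x => congrFun e3 x) (fun i x => congrFun (congrFun e4 i) x) (m y) (m y') ?_ hy hy'
      exact decide_eq_decide.mp e2
    have hcount := Finset.card_le_card_of_injOn Φ hmaps hinjΦ
    have hTcard : Tgt.card ≤
        2 * (2 ^ L) ^ 2 * (2 * (2 ^ bdS d (2 * L) * (2 ^ bdS d (2 * L)) ^ k)) := by
      rw [hTgt, Finset.card_product, Finset.card_product, Finset.card_product,
        Fintype.card_piFinset, Finset.card_univ, Fintype.card_bool]
      refine Nat.mul_le_mul hT (Nat.mul_le_mul_left _ (Nat.mul_le_mul (hder _) ?_))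
      calc ∏ i, (D (H.2 i)).card ≤ ∏ i : Fin k, 2 ^ bdS d (2 * L) :=
            Finset.prod_le_prod' fun i _ => hder _
        _ = _ := by rw [Finset.prod_const, Finset.card_univ, Fintype.card_fin]
    calc Fintype.card Y ≤ 2 * (Z H).card := hH
      _ ≤ 2 * (2 * (2 ^ L) ^ 2 * (2 * (2 ^ bdS d (2 * L) * (2 ^ bdS d (2 * L)) ^ k))) :=
          Nat.mul_le_mul_left _ (hcount.trans hTcard)
      _ = 2 ^ (1 + (1 + L * 2 + (1 + (bdS d (2 * L) + bdS d (2 * L) * k)))) := by
          generalize bdS d (2 * L) = B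
          rw [pow_add 2 1, pow_add 2 (1 + L * 2), pow_add 2 1 (L * 2), pow_add 2 1, pow_add 2 B,
            pow_mul, pow_mul, pow_one]
      _ = 2 ^ bdS (d + 1) L := by
          congr 1
          rw [bdS, hk]
          ring

/-- The size of `bdS`. -/
theorem bdS_le (d : ℕ) : ∀ L, bdS d L ≤ 2 ^ (d ^ 2 + 4 * d) * (L + 1) ^ d := by
  induction d with
  | zero => intro L; simp [bdS]
  | succ d ih =>
    intro L
    rw [bdS]
    have h1 : bdS d (2 * L) ≤ 2 ^ (d ^ 2 + 4 * d) * (2 ^ d * (L + 1) ^ d) := by
      refine (ih (2 * L)).trans (Nat.mul_le_mul_left _ ?_)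
      rw [← mul_pow]
      exact Nat.pow_le_pow_left (by omega) d
    have h2 : 4 * L + d + 6 ≤ (d + 6) * (L + 1) := by nlinarith
    have h3 : d + 9 ≤ 2 ^ (d + 5) := by
      have : d + 1 ≤ 2 ^ d := Nat.lt_two_pow_self
      rw [pow_add]
      omega
    have h4 : 1 ≤ 2 ^ (d ^ 2 + 4 * d) * (2 ^ d * (L + 1) ^ d) := Nat.pos_of_ne_zero (by positivity)
    calc 2 * L + 3 + (4 * L + d + 6) * bdS d (2 * L)
        ≤ (3 * (L + 1)) * (2 ^ (d ^ 2 + 4 * d) * (2 ^ d * (L + 1) ^ d)) +
          ((d + 6) * (L + 1)) * (2 ^ (d ^ 2 + 4 * d) * (2 ^ d * (L + 1) ^ d)) := by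
          refine Nat.add_le_add ?_ (Nat.mul_le_mul h2 h1)
          calc 2 * L + 3 ≤ 3 * (L + 1) * 1 := by omega
            _ ≤ _ := Nat.mul_le_mul_left _ h4
      _ = (d + 9) * (2 ^ (d ^ 2 + 4 * d) * 2 ^ d * (L + 1) ^ (d + 1)) := by
          rw [pow_succ (L + 1) d]
          ring
      _ ≤ 2 ^ (d + 5) * (2 ^ (d ^ 2 + 4 * d) * 2 ^ d * (L + 1) ^ (d + 1)) :=
          Nat.mul_le_mul_right _ h3
      _ = 2 ^ ((d + 1) ^ 2 + 4 * (d + 1)) * (L + 1) ^ (d + 1) := by
          have : (d + 1) ^ 2 + 4 * (d + 1) = (d + 5) + (d ^ 2 + 4 * d) + d := by ring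
          rw [this, pow_add, pow_add]
          ring

end Pool.Agent.Lib_helper76.LD
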