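import Mathlib
import Pool.Agent.Lib_helper10.LogRank.Proto
import Pool.Agent.Lib_helper76.LD.CountS

/-!
Part 1: the log-rank bound for matrices whose columns are polynomials of bounded degree.
-/

set_option autoImplicit false

namespace Pool.Agent.Lib_helper76.LD

open Finset
open Pool.Agent.Lib_helper10.LogRank

/-- Families of functions of degree `≤ d`, up to a fixed function `u`: number of columns. -/
theorem columns_le {V Y : Type} [AddCommGroup V] [Fintype V] [Fintype Y]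
    [DecidableEq (V → ZMod 2)] (d : ℕ) (u : V → ZMod 2) (q : Y → V → ZMod 2)
    (hq : ∀ y, LowDeg d (q y)) (G : Matrix V Y ℝ)
    (hG : ∀ x y, 0 < sg (u x + q y x) * G x y) :
    (univ.image q).card ≤ 2 ^ (2 ^ (d ^ 2 + 5 * d) * (Nat.log 2 G.rank + 1) ^ d) := by
  set ℓ := Nat.log 2 G.rank with hℓ
  have hr : G.rank ≤ 2 ^ (ℓ + 1) := by
    have : G.rank < 2 ^ (ℓ + 1) := Nat.lt_pow_succ_log_self (b := 2) (by norm_num) G.rank
    omega
  have hF : Fac (2 ^ (ℓ + 1)) (fun x y => G x y) := Fac.of_rank G _ hr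
  have h1 := countS (V := V) d (ℓ + 1) Y q hq (fun x y => sg (u x) * G x y * 1) (fun x y => by
      have e : sg (q y x) * (sg (u x) * G x y * 1) = sg (u x + q y x) * G x y := by
        rw [sg_add]
        ring
      rw [e]
      exact hG x y) (hF.scale (fun x => sg (u x)) (fun _ => 1))
  refine h1.trans (Nat.pow_le_pow_right (by norm_num) ((bdS_le d _).trans ?_))
  calc 2 ^ (d ^ 2 + 4 * d) * (ℓ + 1 + 1) ^ d ≤ 2 ^ (d ^ 2 + 4 * d) * (2 * (ℓ + 1)) ^ d :=
        Nat.mul_le_mul_left _ (Nat.pow_le_pow_left (by omega) d)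
    _ = 2 ^ (d ^ 2 + 5 * d) * (ℓ + 1) ^ d := by
        rw [mul_pow, ← mul_assoc, ← pow_add]
        congr 2
        ring

/-- The protocol: Bob announces his column. -/
theorem columns_proto {V Y : Type} [Fintype V] [Fintype Y] [DecidableEq (V → ZMod 2)]
    (u : V → ZMod 2) (q : Y → V → ZMod 2) (b : ℕ) (hb : (univ.image q).card ≤ 2 ^ b) :
    ∃ π : Protocol V Y, (∀ x y, π.eval x y = decide (u x + q y x = 1)) ∧ π.cost ≤ b + 1 := by
  have h : CCOn (fun _ _ => True) (fun (x : V) (y : Y) => decide (u x + q y x = 1)) (0 + 1 + b) := by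
    refine sendB (L := (univ.image q : Finset (V → ZMod 2)))
      (fun y => ⟨q y, Finset.mem_image_of_mem _ (Finset.mem_univ y)⟩)
      (by rw [Fintype.card_coe]; exact hb) fun l => ?_
    refine CCOn.alice (fun x => decide (u x + (l : V → ZMod 2) x = 1)) fun c => ?_
    refine ⟨Protocol.leaf c, le_rfl, fun x y hxy => ?_⟩
    obtain ⟨⟨_, h1⟩, h2⟩ := hxy
    rw [← h1] at h2
    exact h2.symm
  obtain ⟨π, h1, h2⟩ := h
  exact ⟨π, fun x y => h2 x y trivial, by omega⟩

/-- **Part 1**, for an arbitrary finite abelian group. -/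
theorem part1_group {V Y : Type} [AddCommGroup V] [Fintype V] [Fintype Y] (d : ℕ)
    (u : V → ZMod 2) (q : Y → V → ZMod 2) (hq : ∀ y, LowDeg d (q y)) (G : Matrix V Y ℝ)
    (hG : ∀ x y, 0 < sg (u x + q y x) * G x y) :
    (Set.range q).ncard ≤ 2 ^ (2 ^ (d ^ 2 + 5 * d) * (Nat.log 2 G.rank + 1) ^ d) ∧
      ∃ π : Protocol V Y, (∀ x y, π.eval x y = decide (u x + q y x = 1)) ∧
        π.cost ≤ 2 ^ (d ^ 2 + 5 * d + 1) * (Nat.log 2 G.rank + 1) ^ d := by
  classical
  have h1 := columns_le d u q hq G hG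
  constructor
  · have h2 : Set.range q = ((univ.image q : Finset (V → ZMod 2)) : Set (V → ZMod 2)) := by
      simp
    rw [h2, Set.ncard_coe_finset]
    exact h1
  · obtain ⟨π, h2, h3⟩ := columns_proto u q _ h1
    refine ⟨π, h2, h3.trans ?_⟩
    have h4 : 1 ≤ 2 ^ (d ^ 2 + 5 * d) * (Nat.log 2 G.rank + 1) ^ d :=
      Nat.pos_of_ne_zero (by positivity)
    rw [pow_succ 2 (d ^ 2 + 5 * d)]
    nlinarith

end Pool.Agent.Lib_helper76.LD
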