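import Mathlib
import Pool.Agent.Lib_helper76.LD.Part1

/-!
Final statement for functions of bounded one-sided degree.
-/

set_option autoImplicit false

namespace Pool.Agent.Lib_helper76.LD

open Finset
open Pool.Agent.Lib_helper10.LogRank

theorem z2_cases (a : ZMod 2) : a = 0 ∨ a = 1 := by
  revert a
  decide

/-- From sign representations to `sg`. -/
theorem sign_neg {V Y : Type} (F : V → Y → ZMod 2) (G : Matrix V Y ℝ)
    (hG : ∀ x y, (F x y = 1 → 0 < G x y) ∧ (F x y = 0 → G x y < 0)) :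
    ∀ x y, 0 < sg (F x y) * (-G) x y := by
  intro x y
  obtain ⟨h1, h0⟩ := hG x y
  rw [Matrix.neg_apply]
  rcases z2_cases (F x y) with h | h
  · rw [h, sg_zero, one_mul]
    linarith [h0 h]
  · have e : sg 1 = -1 := by simp [sg]
    rw [h, e]
    linarith [h1 h]

theorem rank_neg' {V Y : Type} [Fintype Y] (G : Matrix V Y ℝ) : (-G).rank = G.rank := by
  classical
  have h1 : (-G).mulVecLin = -G.mulVecLin := by
    ext v x
    simp
  rw [Matrix.rank, Matrix.rank, h1, LinearMap.range_neg]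

/-- **One-sided degree.** -/
theorem final_one (n d : ℕ) (Y : Type) [Fintype Y] (u : (Fin n → ZMod 2) → ZMod 2)
    (P : Y → MvPolynomial (Fin n) (ZMod 2)) (hP : ∀ y, (P y).totalDegree ≤ d)
    (F : (Fin n → ZMod 2) → Y → Bool)
    (hF : ∀ x y, F x y = true ↔ u x + MvPolynomial.eval x (P y) = 1)
    (G : Matrix (Fin n → ZMod 2) Y ℝ)
    (hG : ∀ x y, (F x y = true → 0 < G x y) ∧ (F x y = false → G x y < 0)) :
    ∃ π : Protocol (Fin n → ZMod 2) Y, (∀ x y, π.eval x y = F x y) ∧
      π.cost ≤ 2 ^ (d ^ 2 + 5 * d + 1) * (Nat.log 2 G.rank + 1) ^ d := by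
  have hG' : ∀ x y, (u x + MvPolynomial.eval x (P y) = 1 → 0 < G x y) ∧
      (u x + MvPolynomial.eval x (P y) = 0 → G x y < 0) := by
    intro x y
    refine ⟨fun h => (hG x y).1 ((hF x y).mpr h), fun h => (hG x y).2 ?_⟩
    by_contra hc
    rw [Bool.not_eq_false] at hc
    have h1 := (hF x y).mp hc
    rw [h] at h1
    exact absurd h1 (by decide)
  have h := part1_group (V := Fin n → ZMod 2) d u (fun y x => MvPolynomial.eval x (P y))
    (fun y => lowDeg_mvPolynomial (P y) d (hP y)) (-G)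
    (sign_neg (fun x y => u x + MvPolynomial.eval x (P y)) G hG')
  rw [rank_neg'] at h
  obtain ⟨_, π, h2, h3⟩ := h
  refine ⟨π, fun x y => ?_, h3⟩
  rw [h2, Bool.eq_iff_iff, decide_eq_true_iff]
  exact (hF x y).symm

end Pool.Agent.Lib_helper76.LD
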