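import Mathlib
import Pool.Agent.Lib_helper76.LD.Defs2
import Pool.Agent.Lib_helper83.LD.D2
import Pool.Agent.Lib_helper55.LD.B2
import Pool.Agent.Lib_helper12.LD.A
import Pool.Agent.Lib_helper18.LD.C
import Pool.Agent.Lib_helper59.LDX.E
import Pool.Agent.Lib_helper55.LD.F2

/-!
Part 2: XOR functions of bounded degree, a bound which is almost linear in the logarithm of the
sign rank.
-/

set_option autoImplicit false

namespace Pool.Agent.Lib_helper76.LD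

open Finset

/-- Codimension of the subspace which lowers the degree. -/
def cX (D L : ℕ) : ℕ :=
  16 * (D + 2) ^ 2 * (Nat.log 2 (2 * L + 1) + 1) *
    (betaK D * ((16 * (D + 2) ^ 2 * (Nat.log 2 (2 * L + 1) + 1)) ^ (D - 2) *
      (2 ^ (D + 1) * L + 1)))

/-- The degree drops on the cosets of a subspace of small codimension. -/
theorem degree_drop (n d L : ℕ) (f : (Fin n → ZMod 2) → ZMod 2) (hf : LowDeg (d + 2) f)
    (G : (Fin n → ZMod 2) → (Fin n → ZMod 2) → ℝ)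
    (hG : ∀ x y, 0 < sg (f (x + y)) * G x y) (hr : Fac (2 ^ L) G) :
    ∃ c, c ≤ cX (d + 2) L ∧ ∃ ψ : (Fin n → ZMod 2) →ₗ[ZMod 2] (Fin c → ZMod 2),
      ∀ x₀ : Fin n → ZMod 2, LowDeg (d + 1) (fun x : LinearMap.ker ψ => f (x₀ + x)) := by
  classical
  obtain ⟨T, hT⟩ := exists_form_pr (d + 2) f hf
  obtain ⟨k, hk1, hk2, hk3⟩ := field_size_pr (d + 2) (2 * L)
  set ρ₀ : ℕ := 2 ^ (d + 2 + 1) * L + 1 with hρ₀
  have hslice : ∀ (z : Fin (d + 2) → Fin n → ZMod 2) (a b : Fin (d + 2)), a ≠ b →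
      (Matrix.of fun i j : Fin n => T (Function.update (Function.update z a (Pi.single i 1)) b
        (Pi.single j 1))).rank ≤ ρ₀ :=
    fun z a b hab => slice_rank_sign_pr n (d + 2) L f T hT G hG hr z a b hab
  let F := GaloisField 2 k
  let _ : Fintype F := Fintype.ofFinite F
  have hfin : Module.finrank (ZMod 2) F = k := GaloisField.finrank 2 (by omega)
  have hcard : Fintype.card F = 2 ^ k := by
    rw [Fintype.card_eq_nat_card]
    exact GaloisField.card 2 k (by omega)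
  have hι : 2 ≤ Fintype.card (Fin (d + 2)) := by rw [Fintype.card_fin]; omega
  have hmin := extF_minor_pr F hι T ρ₀ hslice
  rw [hfin] at hmin
  set ρ : ℕ := k ^ (Fintype.card (Fin (d + 2)) - 2) * ρ₀ with hρ
  have hF : (ρ + 1) * Fintype.card (Fin (d + 2)) + 1 < Fintype.card F := by
    rw [hcard, hρ, Fintype.card_fin]
    have e : 2 ^ (d + 2) * (2 * L) + 1 = ρ₀ := by
      rw [hρ₀, pow_succ 2 (d + 2)]
      ring
    rw [e] at hk3
    exact hk3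
  obtain ⟨φ, hφ⟩ := lemmaK_pr hι (extF F T) ρ hF hmin
  obtain ⟨ψ, hψ⟩ := descend_pr F n _ φ
  refine ⟨_, ?_, ψ, ?_⟩
  · rw [hfin, Fintype.card_fin, cX, hρ, hρ₀, Fintype.card_fin]
    exact Nat.mul_le_mul hk2 (Nat.mul_le_mul_left _ (Nat.mul_le_mul_right _
      (Nat.pow_le_pow_left hk2 _)))
  · intro x₀
    refine lowDeg_restrict_pr (d + 1) f T hT (LinearMap.ker ψ) ?_ x₀
    intro h hh
    have h1 := hφ (fun j i => algebraMap (ZMod 2) F (h j i)) 0 (fun j _ => hψ (h j) (hh j))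
    rw [extF_coe_pr] at h1
    exact (map_eq_zero_iff _ (algebraMap (ZMod 2) F).injective).mp h1

/-- Cost for degree `≤ d + 1`. -/
def BX : ℕ → ℕ → ℕ
  | 0, _ => 2
  | d + 1, L => 2 * cX (d + 2) L + BX d L

theorem XorCC.mono {V : Type} [AddCommGroup V] {f : V → ZMod 2} {B B' : ℕ} (h : XorCC f B)
    (hB : B ≤ B') : XorCC f B' := by
  obtain ⟨π, h1, h2⟩ := h
  exact ⟨π, h1, h2.trans hB⟩

theorem xor_all (L d : ℕ) : ∀ (n : ℕ) (f : (Fin n → ZMod 2) → ZMod 2), LowDeg (d + 1) f →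
    ∀ G : (Fin n → ZMod 2) → (Fin n → ZMod 2) → ℝ,
    (∀ x y, 0 < sg (f (x + y)) * G x y) → Fac (2 ^ L) G → XorCC f (BX d L) := by
  induction d with
  | zero =>
    intro n f hf G _ _
    exact xor_base_pr n f hf
  | succ d ih =>
    intro n f hf G hG hr
    obtain ⟨c, hc, ψ, hψ⟩ := degree_drop n d L f hf G hG hr
    refine (xor_step_sign_pr n c (d + 1) L (BX d L) f G hG hr ψ hψ ih).mono ?_
    rw [BX]
    omega

theorem betaK_le (m : ℕ) : betaK m ≤ 2 ^ (m ^ 2 + 1) := by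
  induction m with
  | zero => simp [betaK]
  | succ m ih =>
    rw [betaK]
    split_ifs with h
    · calc 2 = 2 ^ 1 := rfl
        _ ≤ 2 ^ ((m + 1) ^ 2 + 1) := Nat.pow_le_pow_right (by norm_num) (Nat.le_add_left _ _)
    · have h1 : m + 1 ≤ 2 ^ m := Nat.lt_two_pow_self
      calc (m + 1) * 2 ^ (m + 1) * betaK m ≤ 2 ^ m * 2 ^ (m + 1) * 2 ^ (m ^ 2 + 1) :=
            Nat.mul_le_mul (Nat.mul_le_mul_right _ h1) ih
        _ = 2 ^ ((m + 1) ^ 2 + 1) := by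
            rw [← pow_add, ← pow_add]
            congr 1
            ring

theorem cX_le (d ℓ : ℕ) : cX (d + 2) (ℓ + 1) ≤
    2 ^ (3 * (d + 2) ^ 2 + 7 * (d + 2)) * ((ℓ + 1) * (Nat.log 2 (ℓ + 1) + 1) ^ (d + 1)) := by
  set ll := Nat.log 2 (ℓ + 1) with hll
  have h1 : Nat.log 2 (2 * (ℓ + 1) + 1) ≤ ll + 2 := by
    have e1 : 2 * (ℓ + 1) + 1 ≤ (ℓ + 1) * 2 * 2 := by omega
    refine (Nat.log_mono_right e1).trans ?_
    rw [Nat.log_mul_base (by norm_num) (by positivity),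
      Nat.log_mul_base (by norm_num) (by positivity)]
  have h2 : d + 2 + 2 ≤ 2 ^ (d + 3) := by
    have : d + 3 < 2 ^ (d + 3) := Nat.lt_two_pow_self
    omega
  have hK : 16 * (d + 2 + 2) ^ 2 * (Nat.log 2 (2 * (ℓ + 1) + 1) + 1) ≤
      2 ^ (2 * d + 12) * (ll + 1) := by
    calc 16 * (d + 2 + 2) ^ 2 * (Nat.log 2 (2 * (ℓ + 1) + 1) + 1)
        ≤ 16 * (2 ^ (d + 3)) ^ 2 * (4 * (ll + 1)) := by
          refine Nat.mul_le_mul (Nat.mul_le_mul_left _ (Nat.pow_le_pow_left h2 2)) ?_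
          omega
      _ = 2 ^ (2 * d + 12) * (ll + 1) := by
          rw [← pow_mul]
          have : 2 * d + 12 = (d + 3) * 2 + 6 := by ring
          rw [this, pow_add]
          ring
  have h3 : 2 ^ (d + 2 + 1) * (ℓ + 1) + 1 ≤ 2 ^ (d + 4) * (ℓ + 1) := by
    have e : 2 ^ (d + 4) = 2 ^ (d + 3) * 2 := pow_succ _ _
    rw [e]
    have : 1 ≤ 2 ^ (d + 3) * (ℓ + 1) := Nat.pos_of_ne_zero (by positivity)
    nlinarith
  rw [cX]
  calc 16 * (d + 2 + 2) ^ 2 * (Nat.log 2 (2 * (ℓ + 1) + 1) + 1) *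
      (betaK (d + 2) * ((16 * (d + 2 + 2) ^ 2 * (Nat.log 2 (2 * (ℓ + 1) + 1) + 1)) ^ (d + 2 - 2) *
      (2 ^ (d + 2 + 1) * (ℓ + 1) + 1)))
      ≤ (2 ^ (2 * d + 12) * (ll + 1)) * (2 ^ ((d + 2) ^ 2 + 1) *
        ((2 ^ (2 * d + 12) * (ll + 1)) ^ d * (2 ^ (d + 4) * (ℓ + 1)))) := by
        refine Nat.mul_le_mul hK (Nat.mul_le_mul (betaK_le _) (Nat.mul_le_mul ?_ h3))
        rw [Nat.add_sub_cancel]
        exact Nat.pow_le_pow_left hK d
    _ = 2 ^ ((2 * d + 12) + ((d + 2) ^ 2 + 1) + (2 * d + 12) * d + (d + 4)) *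
        ((ℓ + 1) * (ll + 1) ^ (d + 1)) := by
        rw [mul_pow, ← pow_mul, pow_add, pow_add, pow_add, pow_succ (ll + 1) d]
        ring
    _ ≤ _ := by
        apply Nat.mul_le_mul_right
        apply Nat.pow_le_pow_right (by norm_num)
        nlinarith

theorem BX_le (d ℓ : ℕ) : BX d (ℓ + 1) ≤
    2 ^ (3 * (d + 1) ^ 2 + 7 * (d + 1) + 2) *
      ((ℓ + 1) * (Nat.log 2 (ℓ + 1) + 1) ^ d) := by
  induction d with
  | zero =>
    rw [BX, pow_zero, mul_one]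
    have : 1 ≤ ℓ + 1 := by omega
    calc 2 ≤ 2 ^ (3 * (0 + 1) ^ 2 + 7 * (0 + 1) + 2) * 1 := by norm_num
      _ ≤ _ := Nat.mul_le_mul_left _ this
  | succ d ih =>
    rw [BX]
    set ll := Nat.log 2 (ℓ + 1) with hll
    set X := (ℓ + 1) * (ll + 1) ^ (d + 1) with hX
    have h1 : 2 ^ (3 * (d + 1) ^ 2 + 7 * (d + 1) + 2) * ((ℓ + 1) * (ll + 1) ^ d) ≤
        2 ^ (3 * (d + 1 + 1) ^ 2 + 7 * (d + 1 + 1) + 1) * X := by
      refine Nat.mul_le_mul (Nat.pow_le_pow_right (by norm_num) (by nlinarith)) ?_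
      rw [hX]
      apply Nat.mul_le_mul_left
      exact Nat.pow_le_pow_right (by omega) (by omega)
    have h2 := cX_le d ℓ
    rw [← hll, ← hX] at h2
    calc 2 * cX (d + 2) (ℓ + 1) + BX d (ℓ + 1)
        ≤ 2 * (2 ^ (3 * (d + 2) ^ 2 + 7 * (d + 2)) * X) +
          2 ^ (3 * (d + 1 + 1) ^ 2 + 7 * (d + 1 + 1) + 1) * X :=
          Nat.add_le_add (Nat.mul_le_mul_left _ h2) (ih.trans h1)
      _ = 2 ^ (3 * (d + 1 + 1) ^ 2 + 7 * (d + 1 + 1) + 2) * X := by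
          rw [pow_succ 2 (3 * (d + 1 + 1) ^ 2 + 7 * (d + 1 + 1) + 1),
            pow_succ 2 (3 * (d + 1 + 1) ^ 2 + 7 * (d + 1 + 1))]
          ring

/-- **Part 2.** -/
theorem part2 (n d : ℕ) (f : (Fin n → ZMod 2) → ZMod 2) (hf : LowDeg d f)
    (G : Matrix (Fin n → ZMod 2) (Fin n → ZMod 2) ℝ)
    (hG : ∀ x y, 0 < sg (f (x + y)) * G x y) :
    XorCC f (2 ^ (3 * d ^ 2 + 7 * d + 12) * ((Nat.log 2 G.rank + 1) *
      (Nat.log 2 (Nat.log 2 G.rank + 1) + 1) ^ (d - 1))) := by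
  set ℓ := Nat.log 2 G.rank with hℓ
  have hr : G.rank ≤ 2 ^ (ℓ + 1) := by
    have : G.rank < 2 ^ (ℓ + 1) := Nat.lt_pow_succ_log_self (b := 2) (by norm_num) G.rank
    omega
  have hF : Fac (2 ^ (ℓ + 1)) (fun x y => G x y) := Fac.of_rank G _ hr
  rcases Nat.eq_zero_or_pos d with h0 | h0
  · subst h0
    refine (xor_all (ℓ + 1) 0 n f hf.mono_succ (fun x y => G x y) hG hF).mono ?_
    rw [BX]
    have : 1 ≤ (ℓ + 1) * (Nat.log 2 (ℓ + 1) + 1) ^ (0 - 1) := by simp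
    calc 2 ≤ 2 ^ (3 * 0 ^ 2 + 7 * 0 + 12) * 1 := by norm_num
      _ ≤ _ := Nat.mul_le_mul_left _ this
  · obtain ⟨e, rfl⟩ : ∃ e, d = e + 1 := ⟨d - 1, by omega⟩
    refine (xor_all (ℓ + 1) e n f hf (fun x y => G x y) hG hF).mono ?_
    rw [Nat.add_sub_cancel]
    refine (BX_le e ℓ).trans (Nat.mul_le_mul_right _ ?_)
    exact Nat.pow_le_pow_right (by norm_num) (by omega)

end Pool.Agent.Lib_helper76.LD
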