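import Mathlib
import Pool.Agent.Lib_helper76.LD.Final1
import Pool.Agent.Lib_helper76.LD.Part2

/-!
Final statements: polynomials over `ZMod 2`.
-/

set_option autoImplicit false

namespace Pool.Agent.Lib_helper76.LD

open Finset
open Pool.Agent.Lib_helper10.LogRank

/-- The first constant is at most the common one. -/
theorem const_le (d : ℕ) : 2 ^ (d ^ 2 + 5 * d + 1) ≤ 2 ^ (3 * d ^ 2 + 7 * d + 12) :=
  Nat.pow_le_pow_right (by norm_num) (by nlinarith)

/-- **One-sided degree.** -/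
theorem final1 (n d : ℕ) (Y : Type) [Fintype Y] (u : (Fin n → ZMod 2) → ZMod 2)
    (P : Y → MvPolynomial (Fin n) (ZMod 2)) (hP : ∀ y, (P y).totalDegree ≤ d)
    (G : Matrix (Fin n → ZMod 2) Y ℝ)
    (hG : ∀ x y, (u x + MvPolynomial.eval x (P y) = 1 → 0 < G x y) ∧
      (u x + MvPolynomial.eval x (P y) = 0 → G x y < 0)) :
    (Set.range fun (y : Y) (x : Fin n → ZMod 2) => MvPolynomial.eval x (P y)).ncard ≤
        2 ^ (2 ^ (3 * d ^ 2 + 7 * d + 12) * (Nat.log 2 G.rank + 1) ^ d) ∧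
      ∃ π : Protocol (Fin n → ZMod 2) Y,
        (∀ x y, π.eval x y = decide (u x + MvPolynomial.eval x (P y) = 1)) ∧
        π.cost ≤ 2 ^ (3 * d ^ 2 + 7 * d + 12) * (Nat.log 2 G.rank + 1) ^ d := by
  have h := part1_group (V := Fin n → ZMod 2) d u (fun y x => MvPolynomial.eval x (P y))
    (fun y => lowDeg_mvPolynomial (P y) d (hP y)) (-G)
    (sign_neg (fun x y => u x + MvPolynomial.eval x (P y)) G hG)
  rw [rank_neg'] at h
  obtain ⟨h1, π, h2, h3⟩ := h
  have hc : 2 ^ (d ^ 2 + 5 * d) ≤ 2 ^ (3 * d ^ 2 + 7 * d + 12) :=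
    Nat.pow_le_pow_right (by norm_num) (by nlinarith)
  exact ⟨h1.trans (Nat.pow_le_pow_right (by norm_num) (Nat.mul_le_mul_right _ hc)), π, h2,
    h3.trans (Nat.mul_le_mul_right _ (const_le d))⟩

/-- **Two-party polynomials of total degree `≤ d + 1`.** -/
theorem final2 (n m d : ℕ) (P : MvPolynomial (Fin n ⊕ Fin m) (ZMod 2))
    (hP : P.totalDegree ≤ d + 1) (G : Matrix (Fin n → ZMod 2) (Fin m → ZMod 2) ℝ)
    (hG : ∀ x y, (MvPolynomial.eval (Sum.elim x y) P = 1 → 0 < G x y) ∧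
      (MvPolynomial.eval (Sum.elim x y) P = 0 → G x y < 0)) :
    ∃ π : Protocol (Fin n → ZMod 2) (Fin m → ZMod 2),
      (∀ x y, π.eval x y = decide (MvPolynomial.eval (Sum.elim x y) P = 1)) ∧
      π.cost ≤ 2 ^ (3 * d ^ 2 + 7 * d + 12) * (Nat.log 2 G.rank + 1) ^ d := by
  have hdeg := lowDeg_mvPolynomial P (d + 1) hP
  let e : (Fin n → ZMod 2) →+ (Fin n ⊕ Fin m → ZMod 2) :=
    { toFun := fun x => Sum.elim x (0 : Fin m → ZMod 2)
      map_zero' := by funext i; cases i <;> rfl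
      map_add' := by
        intro x x'
        funext i
        cases i <;> simp }
  have hsum : ∀ (x : Fin n → ZMod 2) (y : Fin m → ZMod 2),
      e x + Sum.elim (0 : Fin n → ZMod 2) y = Sum.elim x y := by
    intro x y
    funext i
    cases i <;> simp [e]
  have he : ∀ x : Fin n → ZMod 2, e x = Sum.elim x (0 : Fin m → ZMod 2) := fun _ => rfl
  set u : (Fin n → ZMod 2) → ZMod 2 := fun x => MvPolynomial.eval (Sum.elim x 0) P with hu
  set q : (Fin m → ZMod 2) → (Fin n → ZMod 2) → ZMod 2 := fun y x =>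
    MvPolynomial.eval (Sum.elim x y) P + MvPolynomial.eval (Sum.elim x 0) P with hq
  have hqdeg : ∀ y, LowDeg d (q y) := by
    intro y
    have h1 := f_lowDeg e d _ (hdeg (Sum.elim (0 : Fin n → ZMod 2) y))
    refine (congrArg (LowDeg d) ?_).mp h1
    funext x
    simp only [hq]
    rw [hsum x y, he x]
  have huq : ∀ x y, u x + q y x = MvPolynomial.eval (Sum.elim x y) P := by
    intro x y
    have : ∀ a b : ZMod 2, a + (b + a) = b := by decide
    exact this _ _
  have h := part1_group (V := Fin n → ZMod 2) d u q hqdeg (-G)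
    (sign_neg (fun x y => u x + q y x) G (fun x y => by simp only [huq]; exact hG x y))
  rw [rank_neg'] at h
  obtain ⟨_, π, h2, h3⟩ := h
  refine ⟨π, fun x y => by rw [h2, huq], h3.trans (Nat.mul_le_mul_right _ (const_le d))⟩

/-- **XOR functions.** -/
theorem final3 (n d : ℕ) (f : MvPolynomial (Fin n) (ZMod 2)) (hf : f.totalDegree ≤ d)
    (G : Matrix (Fin n → ZMod 2) (Fin n → ZMod 2) ℝ)
    (hG : ∀ x y, (MvPolynomial.eval (x + y) f = 1 → 0 < G x y) ∧
      (MvPolynomial.eval (x + y) f = 0 → G x y < 0)) :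
    ∃ π : Protocol (Fin n → ZMod 2) (Fin n → ZMod 2),
      (∀ x y, π.eval x y = decide (MvPolynomial.eval (x + y) f = 1)) ∧
      π.cost ≤ 2 ^ (3 * d ^ 2 + 7 * d + 12) * ((Nat.log 2 G.rank + 1) *
        (Nat.log 2 (Nat.log 2 G.rank + 1) + 1) ^ (d - 1)) := by
  have h := part2 n d (fun x => MvPolynomial.eval x f) (lowDeg_mvPolynomial f d hf) (-G)
    (sign_neg (fun x y => MvPolynomial.eval (x + y) f) G hG)
  rw [rank_neg'] at h
  exact h

end Pool.Agent.Lib_helper76.LD
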